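import Pool.Agent.Run7.h887.CMA.Hart

set_option autoImplicit false

open Set Filter Topology Metric MeasureTheory
open scoped ContDiff ComplexOrder ComplexConjugate

namespace Run7.h887.CMA

variable {n : ℕ}

lemma log_sub_le {x y : ℝ} (hx : 0 < x) (hy : 0 < y) : Real.log x - Real.log y ≤ (x - y) / y := by
  have h1 := Real.log_le_sub_one_of_pos (div_pos hx hy)
  rw [Real.log_div hx.ne' hy.ne'] at h1
  rw [sub_div, div_self hy.ne']
  exact h1

lemma deriv_nonneg_of_left {f : ℝ → ℝ} {d t0 t1 : ℝ} (ht : t0 < t1) (hd : HasDerivAt f d t1)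
    (hm : ∀ s ∈ Icc t0 t1, f s ≤ f t1) : 0 ≤ d := by
  have h1 := (hasDerivAt_iff_tendsto_slope.1 hd).mono_left
    (nhdsWithin_mono t1 (fun x (hx : x < t1) => ne_of_lt hx) : 𝓝[<] t1 ≤ 𝓝[≠] t1)
  refine ge_of_tendsto h1 ?_
  filter_upwards [Ioo_mem_nhdsLT ht] with s hs
  rw [slope_def_field]
  exact div_nonneg_of_nonpos (by linarith [hm s ⟨hs.1.le, hs.2.le⟩]) (by linarith [hs.2])

/-- the barrier -/
noncomputable def bar (n : ℕ) (a : Cn n) (α0 δ t0 C K : ℝ) (z : Cn n) (t : ℝ) : ℝ :=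
  (α0 - n * (t - t0)) * Real.log (‖z - a‖ ^ 2 + δ ^ 2) + C + K * (t - t0)

theorem compare {u : Cn n → ℝ → ℝ} {a : Cn n} {R0 T ρ α0 δ t0 t1 C K : ℝ}
    (hρ0 : 0 < ρ) (hρ : ρ < R0) (hδ : 0 < δ) (ht0 : 0 < t0) (ht01 : t0 ≤ t1) (ht1 : t1 < T)
    (hα1 : 0 < α0 - n * t1) (hK : n * Real.log α0 < K)
    (hu : ContDiffOn ℝ 2 (fun p : Cn n × ℝ => u p.1 p.2) (ball a R0 ×ˢ Ioo 0 T))
    (hpd : ∀ t ∈ Ioo 0 T, ∀ z ∈ ball a R0, (cHess (fun w => u w t) z).PosDef)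
    (hflow : ∀ t ∈ Ioo 0 T, ∀ z ∈ ball a R0,
      deriv (fun s => u z s) t ≤ Real.log (cHess (fun w => u w t) z).det.re)
    (hinit : ∀ z, ‖z - a‖ ≤ ρ → u z t0 ≤ bar n a α0 δ t0 C K z t0)
    (hbd : ∀ z, ‖z - a‖ = ρ → ∀ t ∈ Icc t0 t1, u z t ≤ bar n a α0 δ t0 C K z t) :
    ∀ z, ‖z - a‖ ≤ ρ → ∀ t ∈ Icc t0 t1, u z t ≤ bar n a α0 δ t0 C K z t := by
  set U := bar n a α0 δ t0 C K with hU
  have hspos : ∀ z : Cn n, 0 < ‖z - a‖ ^ 2 + δ ^ 2 := fun z => by positivity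
  have hUc : Continuous fun p : Cn n × ℝ => U p.1 p.2 := by
    rw [hU]
    unfold bar
    have h1 : Continuous fun p : Cn n × ℝ => Real.log (‖p.1 - a‖ ^ 2 + δ ^ 2) :=
      Continuous.log (by fun_prop) (fun p => (hspos p.1).ne')
    fun_prop
  have hsub : closedBall a ρ ×ˢ Icc t0 t1 ⊆ ball a R0 ×ˢ Ioo 0 T := by
    intro p hp
    refine ⟨?_, ?_⟩
    · have := hp.1
      rw [mem_closedBall] at this
      rw [mem_ball]; linarith
    · exact ⟨by linarith [hp.2.1], by linarith [hp.2.2]⟩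
  have hcomp : IsCompact (closedBall a ρ ×ˢ Icc t0 t1) :=
    (isCompact_closedBall a ρ).prod isCompact_Icc
  obtain ⟨⟨z1, s1⟩, hmem, hmax⟩ := hcomp.exists_isMaxOn
    ⟨(a, t0), by simp [hρ0.le], by simp [ht01]⟩
    ((hu.continuousOn.mono hsub).sub hUc.continuousOn)
  have hmax' : ∀ z, ‖z - a‖ ≤ ρ → ∀ t ∈ Icc t0 t1, u z t - U z t ≤ u z1 s1 - U z1 s1 := by
    intro z hz t ht
    exact hmax (show (z, t) ∈ closedBall a ρ ×ˢ Icc t0 t1 from
      ⟨by simpa [dist_eq_norm] using hz, ht⟩)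
  suffices hle : u z1 s1 - U z1 s1 ≤ 0 by
    intro z hz t ht
    have := hmax' z hz t ht
    linarith
  by_contra hcon
  push Not at hcon
  have hz1 : ‖z1 - a‖ ≤ ρ := by
    have := hmem.1
    rwa [mem_closedBall, dist_eq_norm] at this
  have hs1 : s1 ∈ Icc t0 t1 := hmem.2
  have hz1' : ‖z1 - a‖ < ρ := by
    refine lt_of_le_of_ne hz1 fun h => ?_
    have := hbd z1 h s1 hs1
    linarith
  have hs1' : t0 < s1 := by
    refine lt_of_le_of_ne hs1.1 fun h => ?_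
    subst h
    have := hinit z1 hz1
    linarith
  have hsT : s1 ∈ Ioo 0 T := ⟨by linarith, by linarith [hs1.2]⟩
  have hzB : z1 ∈ ball a R0 := by rw [mem_ball, dist_eq_norm]; linarith
  have hopen : IsOpen (ball a R0 ×ˢ Ioo (0 : ℝ) T) := isOpen_ball.prod isOpen_Ioo
  have hat : ContDiffAt ℝ 2 (fun p : Cn n × ℝ => u p.1 p.2) (z1, s1) :=
    hu.contDiffAt (hopen.mem_nhds ⟨hzB, hsT⟩)
  have hv : ContDiffAt ℝ 2 (fun w => u w s1) z1 := by
    have h1 : ContDiffAt ℝ 2 (fun w : Cn n => (w, s1)) z1 := contDiffAt_id.prodMk contDiffAt_const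
    exact ContDiffAt.comp (g := fun p : Cn n × ℝ => u p.1 p.2) z1 hat h1
  have htd : DifferentiableAt ℝ (fun s => u z1 s) s1 := by
    have h1 : DifferentiableAt ℝ (fun s : ℝ => (z1, s)) s1 := by fun_prop
    exact DifferentiableAt.comp (g := fun p : Cn n × ℝ => u p.1 p.2) s1
      (hat.differentiableAt (by norm_num)) h1
  set α := α0 - n * (s1 - t0) with hαdef
  set S := ‖z1 - a‖ ^ 2 + δ ^ 2 with hS
  have hSpos : 0 < S := hspos z1
  have hnn : (0 : ℝ) ≤ n := Nat.cast_nonneg n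
  have hαpos : 0 < α := by
    have : (n : ℝ) * (s1 - t0) ≤ n * t1 := mul_le_mul_of_nonneg_left (by linarith [hs1.2]) hnn
    linarith
  have hαle : α ≤ α0 := by
    have : 0 ≤ (n : ℝ) * (s1 - t0) := mul_nonneg hnn (by linarith)
    linarith
  -- time derivative
  have htime : -n * Real.log S + K ≤ deriv (fun s => u z1 s) s1 := by
    have h1 : HasDerivAt (fun s => u z1 s - U z1 s)
        (deriv (fun s => u z1 s) s1 - (-n * Real.log S + K)) s1 := by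
      refine htd.hasDerivAt.sub ?_
      have h2 : HasDerivAt (fun s : ℝ => α0 - n * (s - t0)) (-n : ℝ) s1 := by
        have := (((hasDerivAt_id s1).sub_const t0).const_mul (n : ℝ)).const_sub α0
        simpa using this
      have h3 : HasDerivAt (fun s : ℝ => K * (s - t0)) K s1 := by
        have := ((hasDerivAt_id s1).sub_const t0).const_mul K
        simpa using this
      exact ((h2.mul_const (Real.log S)).add_const C).add h3
    have h4 := deriv_nonneg_of_left hs1' h1 (fun s hs => hmax' z1 hz1 s ⟨hs.1, hs.2.trans hs1.2⟩)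
    linarith
  -- space
  have hhess : ∀ ξ : Cn n, hess (fun w => u w s1) z1 ξ ξ ≤ 2 * (α / S) * ‖ξ‖ ^ 2 := by
    intro ξ
    set b := inner ℝ (z1 - a) ξ with hb
    have hexp : ∀ τ : ℝ, ‖z1 + τ • ξ - a‖ ^ 2 + δ ^ 2 = S + (2 * τ * b + τ ^ 2 * ‖ξ‖ ^ 2) := by
      intro τ
      have h1 : z1 + τ • ξ - a = (z1 - a) + τ • ξ := by abel
      rw [h1, norm_add_sq_real, inner_smul_right, norm_smul, mul_pow, Real.norm_eq_abs, sq_abs, hS]
      ring
    refine hess_le hv ξ (k := fun τ : ℝ => α * (2 * τ * b + τ ^ 2 * ‖ξ‖ ^ 2) / S)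
      (k' := fun τ : ℝ => α * (2 * b + 2 * τ * ‖ξ‖ ^ 2) / S) ?_ ?_ ?_
    · refine Eventually.of_forall fun τ => ?_
      have h1 : HasDerivAt (fun τ : ℝ => 2 * τ * b + τ ^ 2 * ‖ξ‖ ^ 2)
          (2 * b + 2 * τ * ‖ξ‖ ^ 2) τ := by
        have h2 : HasDerivAt (fun τ : ℝ => 2 * τ * b) (2 * b) τ := by
          have := ((hasDerivAt_id τ).const_mul 2).mul_const b
          simpa using this
        have h3 : HasDerivAt (fun τ : ℝ => τ ^ 2 * ‖ξ‖ ^ 2) (2 * τ * ‖ξ‖ ^ 2) τ := by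
          have := (hasDerivAt_pow 2 τ).mul_const (‖ξ‖ ^ 2)
          simpa using this
        exact h2.add h3
      exact (h1.const_mul α).div_const S
    · have h1 : HasDerivAt (fun τ : ℝ => 2 * b + 2 * τ * ‖ξ‖ ^ 2) (2 * ‖ξ‖ ^ 2) (0 : ℝ) := by
        have := (((hasDerivAt_id (0 : ℝ)).const_mul 2).mul_const (‖ξ‖ ^ 2)).const_add (2 * b)
        simpa using this
      have h2 := (h1.const_mul α).div_const S
      have e : 2 * (α / S) * ‖ξ‖ ^ 2 = α * (2 * ‖ξ‖ ^ 2) / S := by ring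
      rw [e]
      exact h2
    · have hlim : Tendsto (fun τ : ℝ => ‖z1 + τ • ξ - a‖) (𝓝 0) (𝓝 ‖z1 - a‖) := by
        have h4 : Continuous fun τ : ℝ => ‖z1 + τ • ξ - a‖ := by fun_prop
        have := h4.tendsto 0
        simpa using this
      filter_upwards [hlim.eventually (gt_mem_nhds hz1')] with τ hτ
      have h5 := hmax' (z1 + τ • ξ) hτ.le s1 hs1
      have h6 : U (z1 + τ • ξ) s1 - U z1 s1 = α * (Real.log (‖z1 + τ • ξ - a‖ ^ 2 + δ ^ 2) -
          Real.log S) := by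
        rw [hU]; unfold bar; rw [hαdef, hS]; ring
      have h7 := log_sub_le (hspos (z1 + τ • ξ)) hSpos
      have h8 : ‖z1 + τ • ξ - a‖ ^ 2 + δ ^ 2 - S = 2 * τ * b + τ ^ 2 * ‖ξ‖ ^ 2 := by
        rw [hexp]; ring
      rw [h8] at h7
      have h9 : α * (Real.log (‖z1 + τ • ξ - a‖ ^ 2 + δ ^ 2) - Real.log S) ≤
          α * ((2 * τ * b + τ ^ 2 * ‖ξ‖ ^ 2) / S) := mul_le_mul_of_nonneg_left h7 hαpos.le
      have h10 : α * (2 * τ * b + τ ^ 2 * ‖ξ‖ ^ 2) / S = α * ((2 * τ * b + τ ^ 2 * ‖ξ‖ ^ 2) / S) := by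
        ring
      have h11 : α * (2 * (0 : ℝ) * b + (0 : ℝ) ^ 2 * ‖ξ‖ ^ 2) / S = 0 := by simp
      simp only [h10]
      have h12 : α * ((2 * (0 : ℝ) * b + (0 : ℝ) ^ 2 * ‖ξ‖ ^ 2) / S) = 0 := by simp
      linarith
  have hlevi : ∀ ξ : Cn n, levi (fun w => u w s1) z1 ξ ≤ (α / S) * ‖ξ‖ ^ 2 := by
    intro ξ
    have h1 := hhess ξ
    have h2 := hhess (Complex.I • ξ)
    rw [norm_smul, Complex.norm_I, one_mul] at h2
    unfold levi
    linarith
  obtain ⟨hd0, hd1⟩ := det_le hv (hpd s1 hsT z1 hzB) hlevi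
  have h1 := hflow s1 hsT z1 hzB
  have h2 : Real.log (cHess (fun w => u w s1) z1).det.re ≤ n * (Real.log α - Real.log S) := by
    calc _ ≤ Real.log ((α / S) ^ n) := Real.log_le_log hd0 hd1
      _ = _ := by rw [Real.log_pow, Real.log_div hαpos.ne' hSpos.ne']
  have h3 : n * Real.log α ≤ n * Real.log α0 :=
    mul_le_mul_of_nonneg_left (Real.log_le_log hαpos hαle) hnn
  nlinarith

end Run7.h887.CMA
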