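import Mathlib

set_option autoImplicit false

open Set Filter Topology Metric
open scoped ContDiff ComplexOrder

namespace Run7.h887.CMA

/-- `ℂⁿ` with its Euclidean norm. -/
abbrev Cn (n : ℕ) : Type := EuclideanSpace ℂ (Fin n)

/-- The `i`-th standard basis vector of `ℂⁿ`. -/
noncomputable def ev {n : ℕ} (i : Fin n) : Cn n := EuclideanSpace.single i 1

/-- `∂f/∂z_i = (∂f/∂x_i - √-1 ∂f/∂y_i) / 2`. -/
noncomputable def dz {n : ℕ} (i : Fin n) (f : Cn n → ℂ) (z : Cn n) : ℂ :=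
  (fderiv ℝ f z (ev i) - Complex.I * fderiv ℝ f z (Complex.I • ev i)) / 2

/-- `∂f/∂z̄_i = (∂f/∂x_i + √-1 ∂f/∂y_i) / 2`. -/
noncomputable def dzbar {n : ℕ} (i : Fin n) (f : Cn n → ℂ) (z : Cn n) : ℂ :=
  (fderiv ℝ f z (ev i) + Complex.I * fderiv ℝ f z (Complex.I • ev i)) / 2

/-- The complex Hessian matrix `(∂²u/∂z_i∂z̄_j)` of a real function `u` on `ℂⁿ`. -/
noncomputable def cHess {n : ℕ} (u : Cn n → ℝ) (z : Cn n) : Matrix (Fin n) (Fin n) ℂ :=
  Matrix.of fun i j => dz i (dzbar j (fun w => (u w : ℂ))) z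

/-- Plurisubharmonic functions on the open set `W`, with values in `[-∞,∞)`: upper semicontinuous,
and on each closed complex disc `{a + ζw : |ζ| ≤ 1}` contained in `W` the value at the centre is at
most the value at the centre of any harmonic polynomial `Re P` which dominates the function on the
boundary circle. -/
def PshOn {n : ℕ} (v : Cn n → EReal) (W : Set (Cn n)) : Prop :=
  (∀ z ∈ W, v z ≠ ⊤) ∧ UpperSemicontinuousOn v W ∧
    ∀ a w : Cn n, (∀ ζ : ℂ, ‖ζ‖ ≤ 1 → a + ζ • w ∈ W) → ∀ P : Polynomial ℂ,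
      (∀ ζ : ℂ, ‖ζ‖ = 1 → v (a + ζ • w) ≤ (((P.eval ζ).re : ℝ) : EReal)) →
        v a ≤ (((P.eval 0).re : ℝ) : EReal)

/-- `Ω` is a bounded strictly pseudoconvex domain with smooth boundary: `Ω = {ρ < 0}` for a smooth
function `ρ` on a neighbourhood `W` of the closure whose complex Hessian is positive definite, with
`ρ = 0` and `dρ ≠ 0` on the boundary. -/
structure StrictlyPseudoconvexDomain {n : ℕ} (Ω : Set (Cn n)) : Prop where
  isOpen : IsOpen Ω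
  connected : IsConnected Ω
  bounded : Bornology.IsBounded Ω
  defining : ∃ (ρ : Cn n → ℝ) (W : Set (Cn n)), IsOpen W ∧ closure Ω ⊆ W ∧ ContDiffOn ℝ ∞ ρ W ∧
    (∀ z ∈ W, (cHess ρ z).PosDef) ∧ Ω = {z | z ∈ W ∧ ρ z < 0} ∧
    ∀ z ∈ frontier Ω, ρ z = 0 ∧ fderiv ℝ ρ z ≠ 0

/-- Admissible data for the flow on `Ω × (0,T)`: `u₀` is plurisubharmonic on an open
neighbourhood of the closure of `Ω`, `φ` is smooth on `closure Ω × [0,T)`, and `φ(z,t) = u₀(z)` for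
`z` in the boundary and `t ∈ [0,T)`. -/
structure IsData {n : ℕ} (Ω : Set (Cn n)) (T : ℝ) (u₀ : Cn n → EReal) (φ : Cn n → ℝ → ℝ) :
    Prop where
  psh : ∃ W : Set (Cn n), IsOpen W ∧ closure Ω ⊆ W ∧ PshOn u₀ W
  smooth : ContDiffOn ℝ ∞ (fun p : Cn n × ℝ => φ p.1 p.2) (closure Ω ×ˢ Ico 0 T)
  compat : ∀ z ∈ frontier Ω, ∀ t ∈ Ico (0 : ℝ) T, ((φ z t : ℝ) : EReal) = u₀ z

/-- A solution `u` of the flow on `Ω × (0,T)` with initial datum `u₀` and boundary data `φ`, in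
the sense of the problem (conditions 1-4 there, pointwise convergence at every point of the closure
of `Ω`). -/
structure IsSolution {n : ℕ} (Ω : Set (Cn n)) (T : ℝ) (u₀ : Cn n → EReal) (φ : Cn n → ℝ → ℝ)
    (u : Cn n → ℝ → ℝ) : Prop where
  smooth : ContDiffOn ℝ ∞ (fun p : Cn n × ℝ => u p.1 p.2) (closure Ω ×ˢ Ioo 0 T)
  strictly_psh : ∀ t ∈ Ioo (0 : ℝ) T, ∀ z ∈ Ω, (cHess (fun w => u w t) z).PosDef
  flow : ∀ t ∈ Ioo (0 : ℝ) T, ∀ z ∈ Ω,
    deriv (fun s => u z s) t = Real.log (cHess (fun w => u w t) z).det.re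
  boundary : ∀ t ∈ Ioo (0 : ℝ) T, ∀ z ∈ frontier Ω, u z t = φ z t
  initial : ∀ z ∈ closure Ω, Tendsto (fun t : ℝ => ((u z t : ℝ) : EReal)) (𝓝[>] 0) (𝓝 (u₀ z))

/-- The statement Q1 in dimension `n`: every plurisubharmonic initial datum has a solution. -/
def Q1 (n : ℕ) : Prop :=
  ∀ (Ω : Set (Cn n)) (T : ℝ) (u₀ : Cn n → EReal) (φ : Cn n → ℝ → ℝ),
    StrictlyPseudoconvexDomain Ω → 0 < T → IsData Ω T u₀ φ → ∃ u, IsSolution Ω T u₀ φ u

end Run7.h887.CMA
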