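import Pool.Agent.Run7.h887.CMA.Local

set_option autoImplicit false

open Set Filter Topology Metric MeasureTheory
open scoped ContDiff ComplexOrder ComplexConjugate

namespace Run7.h887.CMA

variable {n : ℕ}

/-- `u₀(z) ≤ c log |z - a| + C` near `a` for some `c > 0`; for a plurisubharmonic `u₀` this says
that the Lelong number of `u₀` at `a` is positive. -/
def PositiveLelong (u₀ : Cn n → EReal) (a : Cn n) : Prop :=
  ∃ c : ℝ, 0 < c ∧ ∃ C : ℝ, ∀ᶠ z in 𝓝[≠] a, u₀ z ≤ ((c * Real.log ‖z - a‖ + C : ℝ) : EReal)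

/-- The function `log |z - a|`, equal to `-∞` at `a`. -/
noncomputable def logDist (a : Cn n) (z : Cn n) : EReal := ENNReal.log (ENNReal.ofReal ‖z - a‖)

lemma slice_smooth {Ω : Set (Cn n)} {T : ℝ} {u : Cn n → ℝ → ℝ}
    (hu : ContDiffOn ℝ ∞ (fun p : Cn n × ℝ => u p.1 p.2) (closure Ω ×ˢ Ioo 0 T)) :
    ContDiffOn ℝ 2 (fun p : Cn n × ℝ => u p.1 p.2) (Ω ×ˢ Ioo 0 T) :=
  (hu.mono (prod_mono subset_closure Subset.rfl)).of_le ENat.LEInfty.out

/-- the maximum principle: a solution is bounded above by the boundary data -/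
lemma global_bound (hn : 1 ≤ n) {Ω : Set (Cn n)} {T : ℝ} {u₀ : Cn n → EReal} {φ u : Cn n → ℝ → ℝ}
    (hΩ : IsOpen Ω) (hb : Bornology.IsBounded Ω) (hT : 0 < T) (hd : IsData Ω T u₀ φ)
    (hs : IsSolution Ω T u₀ φ u) : ∃ M : ℝ, ∀ t ∈ Ioo 0 T, ∀ z ∈ Ω, u z t ≤ M := by
  have : Nonempty (Fin n) := ⟨⟨0, hn⟩⟩
  have : Nontrivial (Cn n) := inferInstance
  have hcc : IsCompact (closure Ω) := hb.isCompact_closure
  have hfc : IsCompact (frontier Ω) := hcc.of_isClosed_subset isClosed_frontier frontier_subset_closure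
  have hφc : ContinuousOn (fun z => φ z 0) (frontier Ω) := by
    have h1 : ContinuousOn (fun z : Cn n => (z, (0 : ℝ))) (frontier Ω) := by fun_prop
    exact ContinuousOn.comp (g := fun p : Cn n × ℝ => φ p.1 p.2) hd.smooth.continuousOn h1
      (fun z hz => ⟨frontier_subset_closure hz, ⟨le_rfl, hT⟩⟩)
  obtain ⟨M, hM⟩ := hfc.bddAbove_image hφc
  refine ⟨M, fun t ht z hz => ?_⟩
  have hc : ContinuousOn (fun z => u z t) (closure Ω) := by
    have h1 : ContinuousOn (fun z : Cn n => (z, t)) (closure Ω) := by fun_prop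
    exact ContinuousOn.comp (g := fun p : Cn n × ℝ => u p.1 p.2) hs.smooth.continuousOn h1
      (fun z hz => ⟨hz, ht⟩)
  obtain ⟨z1, hz1, hmax⟩ := hcc.exists_isMaxOn ⟨z, subset_closure hz⟩ hc
  have hle : u z t ≤ u z1 t := hmax (subset_closure hz)
  refine hle.trans ?_
  by_cases hin : z1 ∈ Ω
  · exfalso
    have hv : ContDiffAt ℝ 2 (fun w => u w t) z1 :=
      (slice_z (slice_smooth hs.smooth) ht).contDiffAt (hΩ.mem_nhds hin)
    obtain ⟨ξ, hξ⟩ := exists_ne (0 : Cn n)
    have h1 := levi_pos hv (hs.strictly_psh t ht z1 hin) hξ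
    have h2 : ∀ ξ : Cn n, hess (fun w => u w t) z1 ξ ξ ≤ 0 := by
      intro ξ
      refine hess_le hv ξ (k := fun _ => 0) (k' := fun _ => 0)
        (Eventually.of_forall fun τ => hasDerivAt_const τ 0) (hasDerivAt_const 0 0) ?_
      have hlim : Tendsto (fun τ : ℝ => z1 + τ • ξ) (𝓝 0) (𝓝 z1) := by
        have h4 : Continuous fun τ : ℝ => z1 + τ • ξ := by fun_prop
        have := h4.tendsto 0
        simpa using this
      filter_upwards [hlim.eventually (hΩ.mem_nhds hin)] with τ hτ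
      have h5 : u (z1 + τ • ξ) t ≤ u z1 t := hmax (subset_closure hτ)
      simpa using h5
    have h3 := h2 ξ
    have h4 := h2 (Complex.I • ξ)
    unfold levi at h1
    linarith
  · have hfr : z1 ∈ frontier Ω := by
      rw [hΩ.frontier_eq]
      exact ⟨hz1, hin⟩
    rw [hs.boundary t ht z1 hfr]
    have h1 := hd.compat z1 hfr t ⟨ht.1.le, ht.2⟩
    have h2 := hd.compat z1 hfr 0 ⟨le_rfl, hT⟩
    have h3 : φ z1 t = φ z1 0 := by
      rw [← h2] at h1
      exact_mod_cast h1
    rw [h3]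
    exact hM (mem_image_of_mem _ hfr)

theorem no_solution (hn : 1 ≤ n) {Ω : Set (Cn n)} {T : ℝ} {u₀ : Cn n → EReal} {φ : Cn n → ℝ → ℝ}
    (hΩ : IsOpen Ω) (hb : Bornology.IsBounded Ω) (hT : 0 < T) (hd : IsData Ω T u₀ φ)
    {a : Cn n} (ha : a ∈ Ω) (hL : PositiveLelong u₀ a) : ¬ ∃ u, IsSolution Ω T u₀ φ u := by
  rintro ⟨u, hs⟩
  have : Nonempty (Fin n) := ⟨⟨0, hn⟩⟩
  have : Nontrivial (Cn n) := inferInstance
  obtain ⟨M, hM⟩ := global_bound hn hΩ hb hT hd hs
  obtain ⟨c, hc, C, hev⟩ := hL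
  rw [eventually_nhdsWithin_iff] at hev
  obtain ⟨R1, hR1, h1⟩ := Metric.eventually_nhds_iff_ball.1 hev
  obtain ⟨R2, hR2, h2⟩ := Metric.isOpen_iff.1 hΩ a ha
  set R0 := min R1 R2 with hR0
  have hR0pos : 0 < R0 := lt_min hR1 hR2
  have hsub : ball a R0 ⊆ Ω := (ball_subset_ball (min_le_right _ _)).trans h2
  have hne : ∀ᵐ y ∂(volume : Measure (Cn n)), y ≠ a := by
    rw [ae_iff]
    simp
  refine local_obstruction hn (a := a) (R0 := R0) (T := T) (M := M) (c := c) (C := C) hR0pos hT hc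
    (u := u) ((slice_smooth hs.smooth).mono (prod_mono hsub Subset.rfl))
    (fun t ht z hz => hs.strictly_psh t ht z (hsub hz))
    (fun t ht z hz => (hs.flow t ht z (hsub hz)).le) (fun t ht z hz => hM t ht z (hsub hz)) ?_
  filter_upwards [hne] with z hza hz ε hε
  have h3 := h1 z (ball_subset_ball (min_le_left _ _) hz) hza
  have h4 := hs.initial z (subset_closure (hsub hz))
  have h5 : u₀ z < ((c * Real.log ‖z - a‖ + C + ε : ℝ) : EReal) := by
    refine lt_of_le_of_lt h3 ?_
    exact_mod_cast (by linarith : c * Real.log ‖z - a‖ + C < c * Real.log ‖z - a‖ + C + ε)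
  filter_upwards [h4.eventually (gt_mem_nhds h5)] with t ht
  exact_mod_cast ht.le

/-! ### The data `log |z - a|` -/

lemma logDist_le_iff (a z : Cn n) (y : ℝ) :
    logDist a z ≤ (y : EReal) ↔ ‖z - a‖ ≤ Real.exp y := by
  unfold logDist
  rw [ENNReal.log_ofReal]
  split_ifs with h
  · have h0 : ‖z - a‖ = 0 := le_antisymm h (norm_nonneg _)
    simp [h0, (Real.exp_pos y).le]
  · push Not at h
    rw [EReal.coe_le_coe_iff, Real.log_le_iff_le_exp h]

lemma logDist_of_ne {a z : Cn n} (h : z ≠ a) : logDist a z = ((Real.log ‖z - a‖ : ℝ) : EReal) := by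
  unfold logDist
  exact ENNReal.log_ofReal_of_pos (norm_pos_iff.2 (sub_ne_zero.2 h))

lemma logDist_psh (a : Cn n) (W : Set (Cn n)) : PshOn (logDist a) W := by
  refine ⟨?_, ?_, ?_⟩
  · intro z _
    unfold logDist
    simp
  · have h1 : Continuous (logDist a) := by
      unfold logDist
      exact ENNReal.continuous_log.comp (ENNReal.continuous_ofReal.comp (by fun_prop))
    exact h1.upperSemicontinuous.upperSemicontinuousOn _
  · intro z w _ P hP
    rw [logDist_le_iff]
    have hd : Differentiable ℂ fun ζ : ℂ => Complex.exp (-(P.eval ζ)) • (z + ζ • w - a) := by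
      have h1 : Differentiable ℂ fun ζ : ℂ => Complex.exp (-(P.eval ζ)) :=
        (P.differentiable.neg).cexp
      have h2 : Differentiable ℂ fun ζ : ℂ => z + ζ • w - a := by fun_prop
      exact h1.smul h2
    have hb : ‖Complex.exp (-(P.eval 0)) • (z + (0 : ℂ) • w - a)‖ ≤ 1 := by
      refine Complex.norm_le_of_forall_mem_frontier_norm_le (U := Metric.ball (0:ℂ) 1)
        (f := fun ζ : ℂ => Complex.exp (-(P.eval ζ)) • (z + ζ • w - a)) Metric.isBounded_ball
        hd.diffContOnCl ?_ (subset_closure (Metric.mem_ball_self one_pos))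
      intro ζ hζ
      rw [frontier_ball (0:ℂ) one_ne_zero, mem_sphere_zero_iff_norm] at hζ
      have h1 := (logDist_le_iff a _ _).1 (hP ζ hζ)
      rw [norm_smul, Complex.norm_exp, Complex.neg_re, Real.exp_neg]
      rw [inv_mul_le_iff₀ (Real.exp_pos _), mul_one]
      exact h1
    rw [zero_smul, add_zero, norm_smul, Complex.norm_exp, Complex.neg_re, Real.exp_neg,
      inv_mul_le_iff₀ (Real.exp_pos _), mul_one] at hb
    exact hb

/-- a smooth function equal to `log |z - a|` away from a small ball around `a` -/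
lemma exists_data {Ω : Set (Cn n)} (hΩ : IsOpen Ω) {a : Cn n} (ha : a ∈ Ω) (T : ℝ) :
    ∃ φ : Cn n → ℝ → ℝ, IsData Ω T (logDist a) φ := by
  obtain ⟨r, hr, hsub⟩ := Metric.isOpen_iff.1 hΩ a ha
  let f : ContDiffBump a := ⟨r / 2, r, by linarith, by linarith⟩
  have hpos : ∀ z : Cn n, 0 < ‖z - a‖ ^ 2 + f z := by
    intro z
    rcases eq_or_ne z a with h | h
    · subst h
      have : f z = 1 := f.one_of_mem_closedBall (by simp [f]; linarith)
      rw [this]; positivity
    · have h1 : 0 < ‖z - a‖ := norm_pos_iff.2 (sub_ne_zero.2 h)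
      have h2 : 0 ≤ f z := f.nonneg
      positivity
  refine ⟨fun z _ => 1 / 2 * Real.log (‖z - a‖ ^ 2 + f z), ?_, ?_, ?_⟩
  · exact ⟨univ, isOpen_univ, subset_univ _, logDist_psh a univ⟩
  · apply ContDiff.contDiffOn
    have h1 : ContDiff ℝ ∞ fun z : Cn n => ‖z - a‖ ^ 2 + f z :=
      ((contDiff_id.sub contDiff_const).norm_sq ℝ).add f.contDiff
    have h2 : ContDiff ℝ ∞ fun z : Cn n => Real.log (‖z - a‖ ^ 2 + f z) :=
      h1.log (fun z => (hpos z).ne')
    have h3 : ContDiff ℝ ∞ fun p : Cn n × ℝ => Real.log (‖p.1 - a‖ ^ 2 + f p.1) :=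
      h2.comp contDiff_fst
    exact contDiff_const.mul h3
  · intro z hz t _
    have hz' : z ∉ Ω := by
      rw [hΩ.frontier_eq] at hz
      exact hz.2
    have hr' : r ≤ dist z a := by
      by_contra h
      push Not at h
      exact hz' (hsub h)
    have h1 : f z = 0 := f.zero_of_le_dist (by simpa [f] using hr')
    have hne : z ≠ a := by
      rintro rfl
      exact hz' ha
    have e : 1 / 2 * Real.log (‖z - a‖ ^ 2 + f z) = Real.log ‖z - a‖ := by
      rw [h1, add_zero, Real.log_pow]; push_cast; ring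
    rw [logDist_of_ne hne, e]

lemma logDist_lelong (a : Cn n) : PositiveLelong (logDist a) a := by
  refine ⟨1, one_pos, 0, ?_⟩
  filter_upwards [self_mem_nhdsWithin] with z hz
  rw [logDist_of_ne hz]
  simp

/-! ### The unit ball -/

lemma hess_normsq (c : ℝ) (z v w : Cn n) :
    hess (fun z : Cn n => ‖z‖ ^ 2 - c) z v w = 2 * inner ℝ v w := by
  have h1 : ∀ z : Cn n, HasFDerivAt (fun z : Cn n => ‖z‖ ^ 2 - c) ((2 : ℝ) • innerSL ℝ z) z := by
    intro z
    refine ((hasStrictFDerivAt_norm_sq z).hasFDerivAt.sub_const c).congr_fderiv ?_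
    ext w
    simp
  have h2 : fderiv ℝ (fun z : Cn n => ‖z‖ ^ 2 - c) = fun z => (2 : ℝ) • innerSL ℝ z := by
    funext z
    exact (h1 z).fderiv
  unfold hess
  rw [h2]
  have h3 : HasFDerivAt (fun z : Cn n => (2 : ℝ) • innerSL ℝ z) ((2 : ℝ) • innerSL ℝ) z :=
    ((innerSL ℝ : Cn n →L[ℝ] Cn n →L[ℝ] ℝ).hasFDerivAt).const_smul (2 : ℝ)
  rw [h3.fderiv]
  rfl

lemma ball_domain (hn : 1 ≤ n) : StrictlyPseudoconvexDomain (ball (0 : Cn n) 1) := by
  have : Nonempty (Fin n) := ⟨⟨0, hn⟩⟩
  have : Nontrivial (Cn n) := inferInstance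
  refine ⟨isOpen_ball, isConnected_ball one_pos, isBounded_ball, ?_⟩
  have hsm : ContDiff ℝ ∞ fun z : Cn n => ‖z‖ ^ 2 - 1 := (contDiff_id.norm_sq ℝ).sub contDiff_const
  refine ⟨fun z => ‖z‖ ^ 2 - 1, univ, isOpen_univ, subset_univ _, hsm.contDiffOn, ?_, ?_, ?_⟩
  · intro z _
    have h1 : cHess (fun z : Cn n => ‖z‖ ^ 2 - 1) z = 1 := by
      ext i j
      rw [cHess_eq (hsm.contDiffAt.of_le ENat.LEInfty.out) i j]
      simp only [hess_normsq]
      have e1 : ∀ i j : Fin n, inner ℝ (ev i : Cn n) (ev j) = if i = j then 1 else 0 := by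
        intro i j
        rw [PiLp.inner_apply]
        simp only [ev, PiLp.single_apply]
        rw [Finset.sum_eq_single i]
        · by_cases h : i = j
          · simp [h]
          · simp [h]
        · intro b _ hb
          simp [hb]
        · simp
      have e2 : ∀ i j : Fin n, inner ℝ (Complex.I • ev i : Cn n) (Complex.I • ev j) =
          if i = j then 1 else 0 := by
        intro i j
        rw [PiLp.inner_apply]
        simp only [ev, PiLp.smul_apply, PiLp.single_apply]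
        rw [Finset.sum_eq_single i]
        · by_cases h : i = j
          · simp [h]
          · simp [h]
        · intro b _ hb
          simp [hb]
        · simp
      have e3 : ∀ i j : Fin n, inner ℝ (ev i : Cn n) (Complex.I • ev j) = 0 := by
        intro i j
        rw [PiLp.inner_apply]
        simp only [ev, PiLp.smul_apply, PiLp.single_apply]
        apply Finset.sum_eq_zero
        intro b _
        by_cases h1 : b = i <;> by_cases h2 : b = j <;> simp [h1, h2] <;> split_ifs <;> simp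
      have e4 : ∀ i j : Fin n, inner ℝ (Complex.I • ev i : Cn n) (ev j) = 0 := by
        intro i j
        rw [real_inner_comm]
        exact e3 j i
      rw [e1, e2, e3, e4, Matrix.one_apply]
      split_ifs <;> norm_num
    rw [h1]
    exact Matrix.PosDef.one
  · ext z
    simp only [mem_ball, dist_zero_right, mem_univ, true_and, mem_ofPred_eq]
    constructor
    · intro h
      nlinarith [norm_nonneg z]
    · intro h
      nlinarith [norm_nonneg z]
  · intro z hz
    rw [frontier_ball (0 : Cn n) one_ne_zero, mem_sphere_zero_iff_norm] at hz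
    refine ⟨by show ‖z‖ ^ 2 - 1 = 0; rw [hz]; norm_num, ?_⟩
    have h1 : HasFDerivAt (fun z : Cn n => ‖z‖ ^ 2 - 1) ((2 : ℝ) • innerSL ℝ z) z := by
      refine ((hasStrictFDerivAt_norm_sq z).hasFDerivAt.sub_const (1 : ℝ)).congr_fderiv ?_
      ext w
      simp
    rw [h1.fderiv]
    intro h0
    have h2 := congrArg (fun L : Cn n →L[ℝ] ℝ => L z) h0
    simp [hz] at h2

theorem not_Q1 (hn : 1 ≤ n) : ¬ Q1 n := by
  intro h
  have h0 : (0 : Cn n) ∈ ball (0 : Cn n) 1 := mem_ball_self one_pos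
  obtain ⟨φ, hφ⟩ := exists_data isOpen_ball h0 1
  exact no_solution hn isOpen_ball isBounded_ball one_pos hφ h0 (logDist_lelong 0)
    (h _ 1 _ φ (ball_domain hn) one_pos hφ)

end Run7.h887.CMA
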