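import Pool.Agent.Run7.h887.CMA.Mass

set_option autoImplicit false

open Set Filter Topology Metric MeasureTheory
open scoped ContDiff ComplexOrder ComplexConjugate

namespace Run7.h887.CMA

variable {n : ℕ}

/-- `κ = 2^{-(2n+1)}` -/
noncomputable def kap (n : ℕ) : ℝ := 1 / 2 ^ (Module.finrank ℝ (Cn n) + 1)

lemma kap_pos (n : ℕ) : 0 < kap n := by unfold kap; positivity

/-- Upper bound at small times: if `u(·,t)` is plurisubharmonic, at most `M`, and at almost every
point the upper limit at time zero is at most `L`, then for small `t` the function is at most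
`M - κ (M - L - 1)` on the ball of radius `r`. -/
theorem hart {u : Cn n → ℝ → ℝ} {a : Cn n} {R0 T M L r : ℝ} (hT : 0 < T) (hr : 0 < r)
    (hr3 : 3 * r ≤ R0)
    (hu : ∀ t ∈ Ioo 0 T, ContDiffOn ℝ 2 (fun z => u z t) (ball a R0))
    (hpos : ∀ t ∈ Ioo 0 T, ∀ z ∈ ball a R0, ∀ w : Cn n, w ≠ 0 → 0 < levi (fun z => u z t) z w)
    (hM : ∀ t ∈ Ioo 0 T, ∀ z ∈ ball a R0, u z t ≤ M)
    (hini : ∀ᵐ y ∂(volume : Measure (Cn n)), y ∈ ball a r → ∀ᶠ t in 𝓝[>] (0 : ℝ), u y t ≤ L + 1) :
    ∀ᶠ t in 𝓝[>] (0 : ℝ), ∀ z, ‖z - a‖ ≤ r → u z t ≤ M - kap n * (M - L - 1) := by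
  have hR0 : r < R0 := by linarith
  have hbb : ball a r ⊆ ball a R0 := ball_subset_ball hR0.le
  set D := Module.finrank ℝ (Cn n) with hD
  -- bad sets
  set A : ℕ → Set (Cn n) := fun k => ⋃ t ∈ Ioo (0 : ℝ) (min T (1 / ((k : ℝ) + 1))),
    (ball a r ∩ (fun z => u z t) ⁻¹' (Ioi (L + 1))) with hA
  have hAopen : ∀ k, IsOpen (A k) := by
    intro k
    refine isOpen_iUnion fun t => isOpen_iUnion fun ht => ?_
    have h1 : ContinuousOn (fun z => u z t) (ball a r) :=
      ((hu t ⟨ht.1, ht.2.trans_le (min_le_left _ _)⟩).continuousOn).mono hbb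
    exact h1.isOpen_inter_preimage isOpen_ball isOpen_Ioi
  have hAsub : ∀ k, A k ⊆ ball a r := by
    intro k y hy
    simp only [hA, mem_iUnion] at hy
    obtain ⟨t, _, h1⟩ := hy
    exact h1.1
  have hAanti : Antitone A := by
    intro k l hkl y hy
    simp only [hA, mem_iUnion] at hy ⊢
    obtain ⟨t, ht, h1⟩ := hy
    refine ⟨t, ⟨ht.1, ht.2.trans_le ?_⟩, h1⟩
    have hkl' : (k : ℝ) ≤ l := by exact_mod_cast hkl
    exact min_le_min le_rfl (by
      apply one_div_le_one_div_of_le <;> [positivity; linarith])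
  have hfin : volume (ball a r) ≠ ⊤ := measure_ball_lt_top.ne
  have hlim : Tendsto (fun k => volume (A k)) atTop (𝓝 (volume (⋂ k, A k))) :=
    tendsto_measure_iInter_atTop (fun k => (hAopen k).measurableSet.nullMeasurableSet) hAanti
      ⟨0, ne_top_of_le_ne_top hfin (measure_mono (hAsub 0))⟩
  have hzero : volume (⋂ k, A k) = 0 := by
    rw [measure_eq_zero_iff_ae_notMem]
    filter_upwards [hini] with y hy hmem
    have hy1 : y ∈ ball a r := hAsub 0 (mem_iInter.1 hmem 0)
    obtain ⟨ε, hε, h2⟩ := mem_nhdsGT_iff_exists_Ioo_subset.1 (hy hy1)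
    have hε' : 0 < ε := hε
    obtain ⟨k, hk⟩ := exists_nat_one_div_lt hε'
    have h3 := mem_iInter.1 hmem k
    simp only [hA, mem_iUnion] at h3
    obtain ⟨t, ht, h4⟩ := h3
    have h5 : t ∈ Ioo 0 ε := ⟨ht.1, (ht.2.trans_le (min_le_right _ _)).trans hk⟩
    have h6 : u y t ≤ L + 1 := h2 h5
    have h7 : L + 1 < u y t := h4.2
    linarith
  rw [hzero] at hlim
  have hbpos : 0 < volume (ball a r) := measure_ball_pos _ _ hr
  have hhalf : 0 < volume (ball a r) / 2 := ENNReal.half_pos hbpos.ne'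
  obtain ⟨k, hk⟩ := (hlim.eventually (gt_mem_nhds hhalf)).exists
  set G := ball a r \ A k with hG
  have hGmeas : MeasurableSet G := measurableSet_ball.diff (hAopen k).measurableSet
  have hGvol : volume (ball a r) ≤ 2 * volume G := by
    have h1 : volume (ball a r) ≤ volume G + volume (A k) := by
      calc volume (ball a r) ≤ volume (G ∪ A k) := measure_mono (by
            intro y hy
            by_cases h : y ∈ A k
            · exact Or.inr h
            · exact Or.inl ⟨hy, h⟩)
        _ ≤ _ := measure_union_le _ _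
    have h2 : volume (ball a r) / 2 ≤ volume G := by
      have h3 : volume (ball a r) / 2 + volume (ball a r) / 2 ≤ volume G + volume (ball a r) / 2 := by
        rw [ENNReal.add_halves]
        exact h1.trans (by gcongr)
      exact (ENNReal.add_le_add_iff_right (ne_top_of_le_ne_top hfin ENNReal.half_le_self)).1 h3
    calc volume (ball a r) = 2 * (volume (ball a r) / 2) := by
          rw [ENNReal.mul_div_cancel (by norm_num) (by norm_num)]
      _ ≤ _ := by gcongr
  have hmin : 0 < min T (1 / ((k : ℝ) + 1)) := lt_min hT (by positivity)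
  filter_upwards [Ioo_mem_nhdsGT hmin] with t ht z hz
  have htT : t ∈ Ioo 0 T := ⟨ht.1, ht.2.trans_le (min_le_left _ _)⟩
  have hzB : z ∈ ball a R0 := by
    rw [mem_ball, dist_eq_norm]; linarith
  by_cases hneg : M - L - 1 < 0
  · have h1 := hM t htT z hzB
    have h2 := kap_pos n
    nlinarith
  push Not at hneg
  have hsub : ball z (2 * r) ⊆ ball a R0 := by
    intro y hy
    rw [mem_ball, dist_eq_norm] at hy ⊢
    calc ‖y - a‖ = ‖(y - z) + (z - a)‖ := by congr 1; abel
      _ ≤ ‖y - z‖ + ‖z - a‖ := norm_add_le _ _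
      _ < R0 := by linarith
  have hGB : G ⊆ ball z (2 * r) := by
    intro y hy
    have h1 : ‖y - a‖ < r := by simpa [dist_eq_norm] using hy.1
    rw [mem_ball, dist_eq_norm]
    calc ‖y - z‖ = ‖(y - a) - (z - a)‖ := by congr 1; abel
      _ ≤ ‖y - a‖ + ‖z - a‖ := norm_sub_le _ _
      _ < 2 * r := by linarith
  have hGK : ∀ y ∈ G, M - L - 1 ≤ M - u y t := by
    intro y hy
    by_contra hcon
    push Not at hcon
    apply hy.2
    simp only [hA, mem_iUnion]
    exact ⟨t, ht, hy.1, by simp only [mem_preimage, mem_Ioi]; linarith⟩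
  have hmass := mass_bound isOpen_ball (hu t htT) (hpos t htT) hsub (fun y hy => hM t htT y hy)
    hGmeas hGB hGK
  -- volumes
  have hv1 : volume (ball a r) = ENNReal.ofReal (r ^ D) * volume (ball (0 : Cn n) 1) :=
    Measure.addHaar_ball_of_pos _ _ hr
  have hv2 : volume (ball (0 : Cn n) (2 * r)) =
      ENNReal.ofReal ((2 * r) ^ D) * volume (ball (0 : Cn n) 1) :=
    Measure.addHaar_ball_of_pos _ _ (by positivity)
  have hm0 : volume (ball (0 : Cn n) 1) ≠ 0 := (measure_ball_pos _ _ one_pos).ne'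
  have hmt : volume (ball (0 : Cn n) 1) ≠ ⊤ := measure_ball_lt_top.ne
  have hfinal : ENNReal.ofReal ((M - L - 1) * r ^ D) ≤
      ENNReal.ofReal (2 * ((M - u z t) * (2 * r) ^ D)) := by
    have h1 : ENNReal.ofReal (M - L - 1) * volume (ball a r) ≤
        2 * (ENNReal.ofReal (M - u z t) * volume (ball (0 : Cn n) (2 * r))) := by
      calc ENNReal.ofReal (M - L - 1) * volume (ball a r)
          ≤ ENNReal.ofReal (M - L - 1) * (2 * volume G) := by gcongr
        _ = 2 * (ENNReal.ofReal (M - L - 1) * volume G) := by ring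
        _ ≤ _ := by gcongr
    rw [hv1, hv2] at h1
    have hMu : 0 ≤ M - u z t := by linarith [hM t htT z hzB]
    rw [ENNReal.ofReal_mul hneg, ENNReal.ofReal_mul (by norm_num : (0 : ℝ) ≤ 2),
      ENNReal.ofReal_mul hMu]
    have h2 : ENNReal.ofReal 2 = 2 := by simp
    rw [h2]
    have h3 : volume (ball (0 : Cn n) 1) * (ENNReal.ofReal (M - L - 1) * ENNReal.ofReal (r ^ D)) ≤
        volume (ball (0 : Cn n) 1) *
          (2 * (ENNReal.ofReal (M - u z t) * ENNReal.ofReal ((2 * r) ^ D))) := by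
      calc _ = ENNReal.ofReal (M - L - 1) *
            (ENNReal.ofReal (r ^ D) * volume (ball (0 : Cn n) 1)) := by ring
        _ ≤ _ := h1
        _ = _ := by ring
    exact (ENNReal.mul_le_mul_iff_right hm0 hmt).1 h3
  have hMu : 0 ≤ M - u z t := by linarith [hM t htT z hzB]
  have h1 := (ENNReal.ofReal_le_ofReal_iff (by positivity)).1 hfinal
  have hrD : 0 < r ^ D := by positivity
  rw [mul_pow] at h1
  have h2 : (M - L - 1) ≤ 2 * ((M - u z t) * 2 ^ D) := by
    have h3 : (M - L - 1) * r ^ D ≤ (2 * ((M - u z t) * 2 ^ D)) * r ^ D := by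
      calc _ ≤ _ := h1
        _ = _ := by ring
    exact le_of_mul_le_mul_right h3 hrD
  have h4 : kap n * (M - L - 1) ≤ M - u z t := by
    unfold kap
    rw [one_div, inv_mul_le_iff₀ (by positivity)]
    calc M - L - 1 ≤ 2 * ((M - u z t) * 2 ^ D) := h2
      _ = _ := by rw [pow_succ]; ring
  linarith

end Run7.h887.CMA
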