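import Pool.Agent.Run7.h887.CMA.Defs

set_option autoImplicit false

open Set Filter Topology Metric
open scoped ContDiff ComplexOrder ComplexConjugate

namespace Run7.h887.CMA

variable {n : ℕ}

/-- real second derivative -/
noncomputable def hess (u : Cn n → ℝ) (z v w : Cn n) : ℝ := fderiv ℝ (fderiv ℝ u) z v w

lemma cdiff_fderiv {u : Cn n → ℝ} {z : Cn n} (h : ContDiffAt ℝ 2 u z) :
    ContDiffAt ℝ 1 (fderiv ℝ u) z := h.fderiv_right (m := 1) (by norm_num)

lemma hasFDeriv_near {u : Cn n → ℝ} {z : Cn n} (h : ContDiffAt ℝ 2 u z) :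
    ∀ᶠ y in 𝓝 z, HasFDerivAt u (fderiv ℝ u y) y := by
  have h1 := h.eventually (by simp)
  filter_upwards [h1] with y hy
  exact (hy.differentiableAt (by norm_num)).hasFDerivAt

lemma hasFDeriv_fderiv {u : Cn n → ℝ} {z : Cn n} (h : ContDiffAt ℝ 2 u z) :
    HasFDerivAt (fderiv ℝ u) (fderiv ℝ (fderiv ℝ u) z) z :=
  ((cdiff_fderiv h).differentiableAt (by norm_num)).hasFDerivAt

lemma hess_symm {u : Cn n → ℝ} {z : Cn n} (h : ContDiffAt ℝ 2 u z) (v w : Cn n) :
    hess u z v w = hess u z w v := by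
  have h1 := h.isSymmSndFDerivAt (by simp)
  exact h1 v w

/-- the complex Hessian in terms of the real one -/
lemma cHess_eq {u : Cn n → ℝ} {z : Cn n} (h : ContDiffAt ℝ 2 u z) (i j : Fin n) :
    cHess u z i j = (((hess u z (ev i) (ev j) + hess u z (Complex.I • ev i) (Complex.I • ev j)) / 4 : ℝ) : ℂ)
      + Complex.I * (((hess u z (ev i) (Complex.I • ev j) - hess u z (Complex.I • ev i) (ev j)) / 4 : ℝ) : ℂ) := by
  have h0 : ∀ᶠ y in 𝓝 z, dzbar j (fun w => (u w : ℂ)) y =
      ((fderiv ℝ u y (ev j) : ℝ) + Complex.I * (fderiv ℝ u y (Complex.I • ev j) : ℝ)) / 2 := by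
    filter_upwards [hasFDeriv_near h] with y hy
    have h1 : HasFDerivAt (fun w => (u w : ℂ)) (Complex.ofRealCLM.comp (fderiv ℝ u y)) y :=
      Complex.ofRealCLM.hasFDerivAt.comp y hy
    unfold dzbar
    rw [h1.fderiv]
    simp
  have h2 := hasFDeriv_fderiv h
  have e1 : ∀ v : Cn n, HasFDerivAt (fun y => ((fderiv ℝ u y v : ℝ) : ℂ))
      (Complex.ofRealCLM.comp ((fderiv ℝ (fderiv ℝ u) z).flip v)) z := by
    intro v
    have h3 : HasFDerivAt (fun y => fderiv ℝ u y v) ((fderiv ℝ (fderiv ℝ u) z).flip v) z := by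
      refine (h2.clm_apply (hasFDerivAt_const v z)).congr_fderiv ?_
      ext w
      simp
    exact Complex.ofRealCLM.hasFDerivAt.comp z h3
  have h4 : HasFDerivAt (dzbar j (fun w => (u w : ℂ)))
      ((2 : ℂ)⁻¹ • ((Complex.ofRealCLM.comp ((fderiv ℝ (fderiv ℝ u) z).flip (ev j))) +
        Complex.I • (Complex.ofRealCLM.comp ((fderiv ℝ (fderiv ℝ u) z).flip (Complex.I • ev j))))) z := by
    have h5 := ((e1 (ev j)).add ((e1 (Complex.I • ev j)).const_smul Complex.I)).const_smul ((2 : ℂ)⁻¹)
    refine h5.congr_of_eventuallyEq ?_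
    filter_upwards [h0] with y hy
    rw [hy]
    simp only [Pi.smul_apply, Pi.add_apply, smul_eq_mul]
    ring
  show dz i (dzbar j (fun w => (u w : ℂ))) z = _
  unfold dz
  rw [h4.fderiv]
  simp only [_root_.smul_apply, _root_.add_apply,
    ContinuousLinearMap.comp_apply, ContinuousLinearMap.flip_apply, Complex.ofRealCLM_apply,
    smul_eq_mul, hess]
  push_cast
  linear_combination (-1 / 4 : ℂ) * (((fderiv ℝ (fderiv ℝ u) z) (Complex.I • ev i)) (Complex.I • ev j) : ℂ) * Complex.I_sq

/-- The Levi form. -/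
noncomputable def levi (u : Cn n → ℝ) (z w : Cn n) : ℝ :=
  (hess u z w w + hess u z (Complex.I • w) (Complex.I • w)) / 4

lemma decomp (w : Cn n) : w = ∑ i, ((w i).re • ev i + (w i).im • (Complex.I • ev i)) := by
  ext j
  simp only [WithLp.ofLp_sum, Finset.sum_apply, PiLp.add_apply, PiLp.smul_apply, ev,
    PiLp.single_apply, smul_eq_mul]
  rw [Finset.sum_eq_single j]
  · simp [mul_comm Complex.I]
  · intro b _ hb
    simp [Ne.symm hb]
  · simp

lemma hess_add_left (u : Cn n → ℝ) (z a b c : Cn n) : hess u z (a + b) c = hess u z a c + hess u z b c := by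
  simp [hess]

lemma hess_add_right (u : Cn n → ℝ) (z a b c : Cn n) : hess u z a (b + c) = hess u z a b + hess u z a c := by
  simp [hess]

lemma hess_smul_left (u : Cn n → ℝ) (z : Cn n) (r : ℝ) (a b : Cn n) : hess u z (r • a) b = r * hess u z a b := by
  simp [hess]

lemma hess_smul_right (u : Cn n → ℝ) (z : Cn n) (r : ℝ) (a b : Cn n) : hess u z a (r • b) = r * hess u z a b := by
  simp [hess]

lemma hess_sum_left {ι : Type*} (s : Finset ι) (u : Cn n → ℝ) (z : Cn n) (f : ι → Cn n) (b : Cn n) :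
    hess u z (∑ i ∈ s, f i) b = ∑ i ∈ s, hess u z (f i) b := by
  simp [hess]

lemma hess_sum_right {ι : Type*} (s : Finset ι) (u : Cn n → ℝ) (z : Cn n) (f : ι → Cn n) (b : Cn n) :
    hess u z b (∑ i ∈ s, f i) = ∑ i ∈ s, hess u z b (f i) := by
  simp [hess]

lemma hess_dec (u : Cn n → ℝ) (z w w' : Cn n) : hess u z w w' =
    ∑ i : Fin n, ∑ j : Fin n, ((w i).re * (w' j).re * hess u z (ev i) (ev j) +
      (w i).re * (w' j).im * hess u z (ev i) (Complex.I • ev j) +
      (w i).im * (w' j).re * hess u z (Complex.I • ev i) (ev j) +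
      (w i).im * (w' j).im * hess u z (Complex.I • ev i) (Complex.I • ev j)) := by
  conv_lhs => rw [decomp w, decomp w']
  rw [hess_sum_left]
  refine Finset.sum_congr rfl ?_
  intro i _
  rw [hess_sum_right]
  refine Finset.sum_congr rfl ?_
  intro j _
  simp only [hess_add_left, hess_add_right, hess_smul_left, hess_smul_right]
  ring

lemma levi_re {u : Cn n → ℝ} {z : Cn n} (h : ContDiffAt ℝ 2 u z) (x : Fin n → ℂ) :
    (star x ⬝ᵥ (cHess u z).mulVec x).re = levi u z (WithLp.toLp 2 (fun i => conj (x i))) := by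
  unfold levi
  rw [hess_dec, hess_dec, ← Finset.sum_add_distrib, Finset.sum_div]
  simp only [dotProduct, Matrix.mulVec, Finset.mul_sum, Complex.re_sum, Pi.star_apply, cHess_eq h]
  refine Finset.sum_congr rfl ?_
  intro i _
  rw [← Finset.sum_add_distrib, Finset.sum_div]
  refine Finset.sum_congr rfl ?_
  intro j _
  simp
  ring

lemma levi_pos {u : Cn n → ℝ} {z : Cn n} (h : ContDiffAt ℝ 2 u z) (hp : (cHess u z).PosDef)
    {w : Cn n} (hw : w ≠ 0) : 0 < levi u z w := by
  have h1 := hp.re_dotProduct_pos (x := fun i => conj (w i)) (by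
    intro h0
    apply hw
    ext i
    have := congrFun h0 i
    simpa using this)
  have h2 := levi_re h (fun i => conj (w i))
  simp only [Complex.conj_conj] at h2
  have h3 : (WithLp.toLp 2 (fun i => w i) : Cn n) = w := rfl
  rw [h3] at h2
  rw [← h2]
  exact h1

/-- if the Levi form is at most `l` times the square of the norm then the determinant of the
complex Hessian is at most `l ^ n` -/
lemma det_le {u : Cn n → ℝ} {z : Cn n} (h : ContDiffAt ℝ 2 u z) (hp : (cHess u z).PosDef)
    {l : ℝ} (hl : ∀ w : Cn n, levi u z w ≤ l * ‖w‖ ^ 2) :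
    0 < (cHess u z).det.re ∧ (cHess u z).det.re ≤ l ^ n := by
  have h1 := hp.isHermitian.det_eq_prod_eigenvalues
  have h2 : (cHess u z).det.re = ∏ i, hp.isHermitian.eigenvalues i := by
    rw [h1, ← RCLike.ofReal_prod]
    exact RCLike.ofReal_re (K := ℂ) _
  have hpos : ∀ i, 0 < hp.isHermitian.eigenvalues i := fun i => hp.eigenvalues_pos i
  rw [h2]
  refine ⟨Finset.prod_pos fun i _ => hpos i, ?_⟩
  calc ∏ i, hp.isHermitian.eigenvalues i ≤ ∏ _i : Fin n, l := by
        refine Finset.prod_le_prod (fun i _ => (hpos i).le) fun i _ => ?_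
        have h3 := hp.isHermitian.eigenvalues_eq i
        rw [h3]
        set x : Fin n → ℂ := (hp.isHermitian.eigenvectorBasis i).ofLp with hx
        have h4 := levi_re h x
        have h5 := hl (WithLp.toLp 2 (fun i => conj (x i)))
        have h6 : ‖(WithLp.toLp 2 (fun i => conj (x i)) : Cn n)‖ ^ 2 = 1 := by
          rw [EuclideanSpace.norm_sq_eq]
          have h7 : ‖hp.isHermitian.eigenvectorBasis i‖ ^ 2 = 1 := by
            rw [hp.isHermitian.eigenvectorBasis.orthonormal.1 i]; norm_num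
          rw [EuclideanSpace.norm_sq_eq] at h7
          rw [← h7]
          refine Finset.sum_congr rfl fun j _ => ?_
          simp [hx]
        rw [h6, mul_one, ← h4] at h5
        exact h5
    _ = l ^ n := by simp

end Run7.h887.CMA
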