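import Pool.Agent.Run7.h887.CMA.Comp

set_option autoImplicit false

open Set Filter Topology Metric MeasureTheory
open scoped ContDiff ComplexOrder ComplexConjugate

namespace Run7.h887.CMA

variable {n : ℕ}

lemma slice_z {u : Cn n → ℝ → ℝ} {B : Set (Cn n)} {T : ℝ}
    (hu : ContDiffOn ℝ 2 (fun p : Cn n × ℝ => u p.1 p.2) (B ×ˢ Ioo 0 T)) {t : ℝ}
    (ht : t ∈ Ioo 0 T) : ContDiffOn ℝ 2 (fun z => u z t) B := by
  have h1 : ContDiffOn ℝ 2 (fun w : Cn n => (w, t)) B := contDiffOn_id.prodMk contDiffOn_const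
  exact ContDiffOn.comp (g := fun p : Cn n × ℝ => u p.1 p.2) hu h1 (fun z hz => ⟨hz, ht⟩)

/-- uniform version of the initial bound, below the barrier -/
lemma init_unif {u : Cn n → ℝ → ℝ} {a : Cn n} {r1 ρ δ c1 C1 : ℝ} (hr1 : 2 * ρ ≤ r1)
    (hδ : 0 < δ) (hδρ : δ ≤ ρ) (hc1 : 0 < c1)
    (h : ∀ r, 0 < r → r ≤ r1 → ∀ᶠ t in 𝓝[>] (0 : ℝ), ∀ z, ‖z - a‖ ≤ r →
      u z t ≤ c1 * Real.log r + C1) :
    ∀ᶠ t in 𝓝[>] (0 : ℝ), ∀ z ∈ closedBall a ρ,
      u z t ≤ c1 / 2 * Real.log (‖z - a‖ ^ 2 + δ ^ 2) + (C1 + c1 * Real.log 3) := by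
  refine (isCompact_closedBall a ρ).induction_on
    (p := fun S => ∀ᶠ t in 𝓝[>] (0 : ℝ), ∀ z ∈ S,
      u z t ≤ c1 / 2 * Real.log (‖z - a‖ ^ 2 + δ ^ 2) + (C1 + c1 * Real.log 3)) ?_ ?_ ?_ ?_
  · exact Eventually.of_forall fun t z hz => absurd hz (notMem_empty z)
  · intro S S' hSS' hS'
    filter_upwards [hS'] with t ht z hz
    exact ht z (hSS' hz)
  · intro S S' hS hS'
    filter_upwards [hS, hS'] with t ht ht' z hz
    rcases hz with hz | hz
    · exact ht z hz
    · exact ht' z hz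
  · intro z0 hz0
    have hz0' : ‖z0 - a‖ ≤ ρ := by simpa [dist_eq_norm] using hz0
    set m0 := max ‖z0 - a‖ δ with hm0
    have hm0pos : 0 < m0 := lt_of_lt_of_le hδ (le_max_right _ _)
    set r0 := 2 * m0 with hr0
    have hr0pos : 0 < r0 := by positivity
    have hr0le : r0 ≤ r1 := by
      have : m0 ≤ ρ := max_le hz0' hδρ
      linarith
    set V : Set (Cn n) := {z | ‖z - a‖ < r0 ∧ r0 < 3 * max ‖z - a‖ δ} with hV
    have hVopen : IsOpen V := by
      have hV1 : IsOpen {z : Cn n | ‖z - a‖ < r0} := isOpen_lt (by fun_prop) continuous_const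
      have hV2 : IsOpen {z : Cn n | r0 < 3 * max ‖z - a‖ δ} :=
        isOpen_lt continuous_const (by fun_prop)
      exact hV1.inter hV2
    have hz0V : z0 ∈ V := by
      refine ⟨?_, ?_⟩
      · have : ‖z0 - a‖ ≤ m0 := le_max_left _ _
        linarith
      · show r0 < 3 * m0
        linarith
    refine ⟨V, mem_nhdsWithin_of_mem_nhds (hVopen.mem_nhds hz0V), ?_⟩
    filter_upwards [h r0 hr0pos hr0le] with t ht z hz
    have h1 := ht z hz.1.le
    set m := max ‖z - a‖ δ with hm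
    have hmpos : 0 < m := lt_of_lt_of_le hδ (le_max_right _ _)
    have h2 : Real.log r0 ≤ Real.log 3 + Real.log m := by
      rw [← Real.log_mul (by norm_num) hmpos.ne']
      exact Real.log_le_log hr0pos hz.2.le
    have h3 : 2 * Real.log m ≤ Real.log (‖z - a‖ ^ 2 + δ ^ 2) := by
      have h4 : 2 * Real.log m = Real.log (m ^ 2) := by rw [Real.log_pow]; norm_num
      rw [h4]
      refine Real.log_le_log (by positivity) ?_
      rcases max_cases ‖z - a‖ δ with ⟨h5, _⟩ | ⟨h5, _⟩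
      · rw [hm, h5]; nlinarith [sq_nonneg δ]
      · rw [hm, h5]; nlinarith [sq_nonneg ‖z - a‖]
    have h6 : c1 * Real.log r0 ≤ c1 * (Real.log 3 + Real.log m) := mul_le_mul_of_nonneg_left h2 hc1.le
    have h7 : c1 * (2 * Real.log m) ≤ c1 * Real.log (‖z - a‖ ^ 2 + δ ^ 2) :=
      mul_le_mul_of_nonneg_left h3 hc1.le
    linarith

/-- **Local obstruction.**  A subsolution of the flow with plurisubharmonic time slices, bounded
above near `a`, cannot start from a function at most `c log |z - a| + C`. -/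
theorem local_obstruction (hn : 1 ≤ n) {a : Cn n} {R0 T M c C : ℝ} (hR0 : 0 < R0) (hT : 0 < T)
    (hc : 0 < c) {u : Cn n → ℝ → ℝ}
    (hu : ContDiffOn ℝ 2 (fun p : Cn n × ℝ => u p.1 p.2) (ball a R0 ×ˢ Ioo 0 T))
    (hpd : ∀ t ∈ Ioo 0 T, ∀ z ∈ ball a R0, (cHess (fun w => u w t) z).PosDef)
    (hflow : ∀ t ∈ Ioo 0 T, ∀ z ∈ ball a R0,
      deriv (fun s => u z s) t ≤ Real.log (cHess (fun w => u w t) z).det.re)
    (hM : ∀ t ∈ Ioo 0 T, ∀ z ∈ ball a R0, u z t ≤ M)
    (hini : ∀ᵐ z ∂(volume : Measure (Cn n)), z ∈ ball a R0 → ∀ ε > 0, ∀ᶠ t in 𝓝[>] (0 : ℝ),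
      u z t ≤ c * Real.log ‖z - a‖ + C + ε) : False := by
  have : Nonempty (Fin n) := ⟨⟨0, hn⟩⟩
  have : Nontrivial (Cn n) := inferInstance
  have hlevi : ∀ t ∈ Ioo 0 T, ∀ z ∈ ball a R0, ∀ w : Cn n, w ≠ 0 →
      0 < levi (fun z => u z t) z w := by
    intro t ht z hz w hw
    exact levi_pos ((slice_z hu ht).contDiffAt (isOpen_ball.mem_nhds hz)) (hpd t ht z hz) hw
  set κ := kap n with hκ
  have hκ0 : 0 < κ := kap_pos n
  set c1 := κ * c with hc1
  have hc1pos : 0 < c1 := mul_pos hκ0 hc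
  set C1 := M - κ * (M - C - 1) with hC1
  -- step one
  have hne : ∀ᵐ y ∂(volume : Measure (Cn n)), y ≠ a := by
    rw [ae_iff]
    simp
  have step1 : ∀ r, 0 < r → r ≤ R0 / 3 → ∀ᶠ t in 𝓝[>] (0 : ℝ), ∀ z, ‖z - a‖ ≤ r →
      u z t ≤ c1 * Real.log r + C1 := by
    intro r hr hr3
    have h1 := hart (L := c * Real.log r + C) hT hr (by linarith) (fun t ht => slice_z hu ht) hlevi hM
      (by
        filter_upwards [hini, hne] with y hy hya hyr
        have hyR : y ∈ ball a R0 := ball_subset_ball (by linarith) hyr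
        filter_upwards [hy hyR 1 one_pos] with t ht
        have h2 : Real.log ‖y - a‖ ≤ Real.log r := by
          refine Real.log_le_log (norm_pos_iff.2 (sub_ne_zero.2 hya)) ?_
          have : ‖y - a‖ < r := by simpa [dist_eq_norm] using hyr
          exact this.le
        have h3 := mul_le_mul_of_nonneg_left h2 hc.le
        linarith)
    filter_upwards [h1] with t ht z hz
    have h2 := ht z hz
    have h3 : M - κ * (M - (c * Real.log r + C) - 1) = c1 * Real.log r + C1 := by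
      rw [hc1, hC1]; ring
    linarith
  -- parameters
  set ρ := min (R0 / 6) (1 / 2) with hρ
  have hρ0 : 0 < ρ := lt_min (by linarith) (by norm_num)
  have hρR : ρ ≤ R0 / 6 := min_le_left _ _
  have hρ2 : ρ ≤ 1 / 2 := min_le_right _ _
  set α0 := c1 / 2 with hα0
  have hα0pos : 0 < α0 := by positivity
  have hnpos : (0 : ℝ) < n := by exact_mod_cast hn
  set t1 := min (T / 2) (α0 / (2 * n)) with ht1
  have ht1pos : 0 < t1 := lt_min (by linarith) (by positivity)
  have ht1T : t1 < T := lt_of_le_of_lt (min_le_left _ _) (by linarith)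
  have hnt1 : n * t1 ≤ α0 / 2 := by
    calc n * t1 ≤ n * (α0 / (2 * n)) := mul_le_mul_of_nonneg_left (min_le_right _ _) hnpos.le
      _ = α0 / 2 := by field_simp
  set K := n * Real.log α0 + 1 with hK
  set C3 := max (C1 + c1 * Real.log 3) (M + |K| * T - α0 * Real.log (ρ ^ 2)) with hC3
  have key : ∀ δ, 0 < δ → δ ≤ ρ → u a t1 ≤ α0 * Real.log δ + C3 + |K| * T := by
    intro δ hδ hδρ
    have h1 := init_unif (u := u) (a := a) (r1 := R0 / 3) (ρ := ρ) (by linarith) hδ hδρ hc1pos step1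
    obtain ⟨t0, ht0, h2⟩ := (h1.and (Ioo_mem_nhdsGT ht1pos)).exists
    have hcmp := compare (n := n) (u := u) (a := a) (R0 := R0) (T := T) (ρ := ρ) (α0 := α0) (δ := δ)
      (t0 := t0) (t1 := t1) (C := C3) (K := K) hρ0 (by linarith) hδ h2.1 h2.2.le ht1T
      (by linarith) (by linarith) hu hpd hflow
      (by
        intro z hz
        have h3 := ht0 z (by simpa [dist_eq_norm] using hz)
        unfold bar
        have h4 : C1 + c1 * Real.log 3 ≤ C3 := le_max_left _ _
        have h5 : (α0 - n * (t0 - t0)) * Real.log (‖z - a‖ ^ 2 + δ ^ 2) + C3 + K * (t0 - t0) =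
            α0 * Real.log (‖z - a‖ ^ 2 + δ ^ 2) + C3 := by ring
        rw [h5]
        rw [← hα0] at h3
        linarith)
      (by
        intro z hz t ht
        have h3 := hM t ⟨by linarith [h2.1, ht.1], by linarith [ht.2]⟩ z (by
          rw [mem_ball, dist_eq_norm]; linarith)
        unfold bar
        rw [hz]
        have h4 : M + |K| * T - α0 * Real.log (ρ ^ 2) ≤ C3 := le_max_right _ _
        have h5 : Real.log (ρ ^ 2) ≤ Real.log (ρ ^ 2 + δ ^ 2) :=
          Real.log_le_log (by positivity) (by nlinarith [sq_nonneg δ])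
        have h6 : Real.log (ρ ^ 2 + δ ^ 2) ≤ 0 := by
          apply Real.log_nonpos (by positivity)
          nlinarith
        have h7 : 0 ≤ n * (t - t0) := mul_nonneg hnpos.le (by linarith [ht.1])
        have h8 : n * (t - t0) * Real.log (ρ ^ 2 + δ ^ 2) ≤ 0 := mul_nonpos_of_nonneg_of_nonpos h7 h6
        have h9 : α0 * Real.log (ρ ^ 2) ≤ α0 * Real.log (ρ ^ 2 + δ ^ 2) :=
          mul_le_mul_of_nonneg_left h5 hα0pos.le
        have h10 : -(|K| * T) ≤ K * (t - t0) := by
          have h11 : |K * (t - t0)| ≤ |K| * T := by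
            rw [abs_mul, abs_of_nonneg (by linarith [ht.1] : 0 ≤ t - t0)]
            exact mul_le_mul_of_nonneg_left (by linarith [ht.2, h2.1]) (abs_nonneg _)
          linarith [(abs_le.1 h11).1]
        nlinarith)
      a (by simpa using hρ0.le) t1 ⟨h2.2.le, le_rfl⟩
    refine hcmp.trans ?_
    unfold bar
    rw [sub_self, norm_zero]
    have hδ1 : δ < 1 := by linarith
    have hlog : Real.log δ ≤ 0 := Real.log_nonpos hδ.le hδ1.le
    have h3 : Real.log ((0 : ℝ) ^ 2 + δ ^ 2) = 2 * Real.log δ := by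
      rw [zero_pow (by norm_num), zero_add, Real.log_pow]; norm_num
    rw [h3]
    have h4 : K * (t1 - t0) ≤ |K| * T := by
      have h11 : |K * (t1 - t0)| ≤ |K| * T := by
        rw [abs_mul, abs_of_nonneg (by linarith [h2.2] : 0 ≤ t1 - t0)]
        exact mul_le_mul_of_nonneg_left (by linarith [h2.1]) (abs_nonneg _)
      exact (le_abs_self _).trans h11
    have h5 : α0 / 2 ≤ α0 - n * (t1 - t0) := by
      have : 0 ≤ n * t0 := mul_nonneg hnpos.le h2.1.le
      nlinarith
    have h6 : (α0 - n * (t1 - t0)) * Real.log δ ≤ α0 / 2 * Real.log δ :=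
      mul_le_mul_of_nonpos_right h5 hlog
    nlinarith
  -- conclusion
  have hlim : Tendsto (fun δ : ℝ => α0 * Real.log δ + C3 + |K| * T) (𝓝[>] 0) atBot := by
    have h1 := Real.tendsto_log_nhdsGT_zero.const_mul_atBot hα0pos
    have h2 := (tendsto_atBot_add_const_right _ C3 h1)
    exact tendsto_atBot_add_const_right _ (|K| * T) h2
  have h1 := hlim.eventually (eventually_lt_atBot (u a t1))
  obtain ⟨δ, hδ, hδ2⟩ := (h1.and (Ioo_mem_nhdsGT hρ0)).exists
  have := key δ hδ2.1 hδ2.2.le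
  linarith

end Run7.h887.CMA
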