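import Pool.Agent.Run7.h887.CMA.Sub

set_option autoImplicit false

open Set Filter Topology Metric MeasureTheory
open scoped ContDiff ComplexOrder ComplexConjugate

namespace Run7.h887.CMA

variable {n : ℕ}

lemma rot_mp (z : Cn n) {c : ℂ} (hc : ‖c‖ = 1) :
    MeasurePreserving (fun w : Cn n => z + c • w) volume volume := by
  have hc0 : c ≠ 0 := by
    intro h; rw [h] at hc; simp at hc
  let L : Cn n ≃ₗᵢ[ℝ] Cn n :=
    { toLinearEquiv := (LinearEquiv.smulOfNeZero ℂ (Cn n) c hc0).restrictScalars ℝ
      norm_map' := by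
        intro x
        show ‖c • x‖ = ‖x‖
        rw [norm_smul, hc, one_mul] }
  have h1 : MeasurePreserving (L : Cn n → Cn n) volume volume := L.measurePreserving
  have h2 : MeasurePreserving (fun w : Cn n => z + w) volume volume :=
    measurePreserving_add_left volume z
  exact h2.comp h1

lemma circ_meas {G : Set (Cn n)} (hG : MeasurableSet G) (z : Cn n) {R : ℝ} (hGB : G ⊆ ball z R) :
    ∫⁻ w in ball (0 : Cn n) R, ∫⁻ θ in Ioc (0 : ℝ) (2 * Real.pi),
      G.indicator (fun _ => (1 : ENNReal)) (z + (circleMap 0 1 θ) • w) =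
      ENNReal.ofReal (2 * Real.pi) * volume G := by
  rw [lintegral_lintegral_swap]
  · have h1 : ∀ θ : ℝ, ∫⁻ w in ball (0 : Cn n) R,
        G.indicator (fun _ => (1 : ENNReal)) (z + (circleMap 0 1 θ) • w) = volume G := by
      intro θ
      have hc : ‖circleMap 0 1 θ‖ = 1 := by simp
      have hmp := rot_mp z hc
      have h2 : ∫⁻ w in ball (0 : Cn n) R,
          G.indicator (fun _ => (1 : ENNReal)) (z + (circleMap 0 1 θ) • w) =
          ∫⁻ w, G.indicator (fun _ => (1 : ENNReal)) (z + (circleMap 0 1 θ) • w) := by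
        rw [← lintegral_indicator measurableSet_ball]
        congr 1
        ext w
        by_cases hw : w ∈ ball (0 : Cn n) R
        · rw [indicator_of_mem hw]
        · rw [indicator_of_notMem hw, indicator_of_notMem]
          intro hg
          apply hw
          have h3 := hGB hg
          rw [mem_ball, dist_eq_norm, add_sub_cancel_left, norm_smul, hc, one_mul] at h3
          simpa using h3
      rw [h2, hmp.lintegral_comp (f := G.indicator (fun _ => (1 : ENNReal)))
        (measurable_const.indicator hG), lintegral_indicator hG]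
      simp
    simp only [h1]
    rw [lintegral_const, Measure.restrict_apply_univ, Real.volume_Ioc, sub_zero, mul_comm]
  · apply Measurable.aemeasurable
    have h1 : Measurable fun p : Cn n × ℝ => z + (circleMap 0 1 p.2) • p.1 := by
      apply Continuous.measurable
      have : Continuous fun p : Cn n × ℝ => circleMap 0 1 p.2 :=
        (continuous_circleMap 0 1).comp continuous_snd
      fun_prop
    exact (measurable_const.indicator hG).comp h1

theorem mass_bound {v : Cn n → ℝ} {Ω : Set (Cn n)} (hΩ : IsOpen Ω) (hv : ContDiffOn ℝ 2 v Ω)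
    (hpos : ∀ z ∈ Ω, ∀ w : Cn n, w ≠ 0 → 0 < levi v z w) {z : Cn n} {R : ℝ}
    (hB : ball z R ⊆ Ω) {M K : ℝ} (hM : ∀ y ∈ Ω, v y ≤ M) {G : Set (Cn n)}
    (hG : MeasurableSet G) (hGB : G ⊆ ball z R) (hGK : ∀ y ∈ G, K ≤ M - v y) :
    ENNReal.ofReal K * volume G ≤ ENNReal.ofReal (M - v z) * volume (ball (0 : Cn n) R) := by
  have h2pi : (0 : ℝ) < 2 * Real.pi := by positivity
  have key : ∀ w ∈ ball (0 : Cn n) R,
      ∫⁻ θ in Ioc (0 : ℝ) (2 * Real.pi),
        ENNReal.ofReal K * G.indicator (fun _ => (1 : ENNReal)) (z + (circleMap 0 1 θ) • w) ≤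
        ENNReal.ofReal (2 * Real.pi * (M - v z)) := by
    intro w hw
    have hin : ∀ ζ : ℂ, ‖ζ‖ ≤ 1 → z + ζ • w ∈ Ω := by
      intro ζ hζ
      apply hB
      rw [mem_ball, dist_eq_norm, add_sub_cancel_left, norm_smul]
      have : ‖w‖ < R := by simpa using hw
      nlinarith [norm_nonneg w, norm_nonneg ζ]
    have h1 := submean hΩ hv hpos z w hin
    have hcont : Continuous fun θ : ℝ => M - v (z + (circleMap 0 1 θ) • w) := by
      rw [← continuousOn_univ]
      refine continuousOn_const.sub (hv.continuousOn.comp ?_ ?_)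
      · have := continuous_circleMap 0 1
        fun_prop
      · intro θ _
        exact hin _ (by simp)
    have h2 : ∫⁻ θ in Ioc (0 : ℝ) (2 * Real.pi),
        ENNReal.ofReal K * G.indicator (fun _ => (1 : ENNReal)) (z + (circleMap 0 1 θ) • w) ≤
        ∫⁻ θ in Ioc (0 : ℝ) (2 * Real.pi), ENNReal.ofReal (M - v (z + (circleMap 0 1 θ) • w)) := by
      apply lintegral_mono
      intro θ
      by_cases hg : z + (circleMap 0 1 θ) • w ∈ G
      · simp only [indicator_of_mem hg, mul_one]
        exact ENNReal.ofReal_le_ofReal (hGK _ hg)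
      · simp only [indicator_of_notMem hg, mul_zero]
        exact zero_le
    refine h2.trans ?_
    have hint : IntervalIntegrable (fun θ : ℝ => M - v (z + (circleMap 0 1 θ) • w)) volume 0
      (2 * Real.pi) := hcont.intervalIntegrable _ _
    have h3 : ∫⁻ θ in Ioc (0 : ℝ) (2 * Real.pi), ENNReal.ofReal (M - v (z + (circleMap 0 1 θ) • w))
        = ENNReal.ofReal (∫ θ in (0 : ℝ)..(2 * Real.pi), (M - v (z + (circleMap 0 1 θ) • w))) := by
      rw [intervalIntegral.integral_of_le h2pi.le, ofReal_integral_eq_lintegral_ofReal]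
      · exact hint.1
      · refine Eventually.of_forall fun θ => ?_
        have := hM _ (hin (circleMap 0 1 θ) (by simp))
        simp only [Pi.zero_apply]
        linarith
    rw [h3]
    apply ENNReal.ofReal_le_ofReal
    have hint2 : IntervalIntegrable (fun θ : ℝ => v (z + (circleMap 0 1 θ) • w)) volume 0
      (2 * Real.pi) := by
      have := (continuous_const (y := M)).intervalIntegrable (μ := volume) 0 (2 * Real.pi)
      have h4 := this.sub hint
      simpa using h4
    rw [intervalIntegral.integral_sub (by simp) hint2]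
    rw [Real.circleAverage_def] at h1
    simp only [intervalIntegral.integral_const, smul_eq_mul, sub_zero] at h1 ⊢
    have h5 : 2 * Real.pi * v z ≤ ∫ θ in (0 : ℝ)..(2 * Real.pi), v (z + (circleMap 0 1 θ) • w) := by
      have := mul_le_mul_of_nonneg_left h1 h2pi.le
      rwa [← mul_assoc, mul_inv_cancel₀ h2pi.ne', one_mul] at this
    linarith
  have h6 : ∫⁻ w in ball (0 : Cn n) R, ∫⁻ θ in Ioc (0 : ℝ) (2 * Real.pi),
      ENNReal.ofReal K * G.indicator (fun _ => (1 : ENNReal)) (z + (circleMap 0 1 θ) • w) ≤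
      ∫⁻ _w in ball (0 : Cn n) R, ENNReal.ofReal (2 * Real.pi * (M - v z)) :=
    setLIntegral_mono' measurableSet_ball key
  have h7 : ∫⁻ w in ball (0 : Cn n) R, ∫⁻ θ in Ioc (0 : ℝ) (2 * Real.pi),
      ENNReal.ofReal K * G.indicator (fun _ => (1 : ENNReal)) (z + (circleMap 0 1 θ) • w) =
      ENNReal.ofReal K * (ENNReal.ofReal (2 * Real.pi) * volume G) := by
    rw [← circ_meas hG z hGB]
    simp_rw [lintegral_const_mul' _ _ ENNReal.ofReal_ne_top]
  rw [h7, lintegral_const, Measure.restrict_apply_univ, ENNReal.ofReal_mul h2pi.le] at h6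
  have h8 : ENNReal.ofReal (2 * Real.pi) ≠ 0 := by simpa using h2pi
  have h9 : ENNReal.ofReal (2 * Real.pi) ≠ ⊤ := ENNReal.ofReal_ne_top
  have h10 : ENNReal.ofReal (2 * Real.pi) * (ENNReal.ofReal K * volume G) ≤
      ENNReal.ofReal (2 * Real.pi) * (ENNReal.ofReal (M - v z) * volume (ball (0 : Cn n) R)) := by
    calc _ = ENNReal.ofReal K * (ENNReal.ofReal (2 * Real.pi) * volume G) := by ring
      _ ≤ _ := h6
      _ = _ := by ring
  exact (ENNReal.mul_le_mul_iff_right h8 h9).1 h10

end Run7.h887.CMA
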