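import Pool.Agent.Run7.h887.CMA.Levi

set_option autoImplicit false

open Set Filter Topology Metric MeasureTheory
open scoped ContDiff ComplexOrder ComplexConjugate

namespace Run7.h887.CMA

variable {n : ℕ}

/-- second derivative test -/
lemma sec_le {h h' : ℝ → ℝ} {c : ℝ} (h1 : ∀ᶠ τ in 𝓝 (0 : ℝ), HasDerivAt h (h' τ) τ)
    (h2 : HasDerivAt h' c 0) (hm : IsLocalMax h 0) : c ≤ 0 := by
  by_contra hc
  push Not at hc
  have h0 : h' 0 = 0 := hm.hasDerivAt_eq_zero h1.self_of_nhds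
  have h3 : ∀ᶠ τ in 𝓝[>] (0 : ℝ), 0 < h' τ := by
    have h4 := hasDerivAt_iff_tendsto_slope.1 h2
    have h5 : ∀ᶠ τ in 𝓝[≠] (0 : ℝ), 0 < slope h' 0 τ := h4.eventually (lt_mem_nhds hc)
    have h6 : ∀ᶠ τ in 𝓝[>] (0 : ℝ), 0 < slope h' 0 τ :=
      h5.filter_mono (nhdsWithin_mono 0 (fun x hx => ne_of_gt hx))
    filter_upwards [h6, self_mem_nhdsWithin] with τ h7 h8
    rw [slope_def_field, h0, sub_zero, sub_zero] at h7
    have h9 : 0 < τ := h8
    have := mul_pos h7 h9
    rwa [div_mul_cancel₀ _ h9.ne'] at this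
  obtain ⟨ε1, hε1, h7⟩ := Metric.eventually_nhds_iff.1 (h1.and hm)
  obtain ⟨ε2, hε2, h8⟩ := mem_nhdsGT_iff_exists_Ioo_subset.1 h3
  have hε2' : 0 < ε2 := hε2
  set b := min (ε1 / 2) (ε2 / 2) with hb
  have hb0 : 0 < b := lt_min (by linarith) (by linarith)
  have hb1 : b < ε1 := lt_of_le_of_lt (min_le_left _ _) (by linarith)
  have hb2 : b < ε2 := lt_of_le_of_lt (min_le_right _ _) (by linarith)
  have hder : ∀ x ∈ Icc 0 b, HasDerivAt h (h' x) x := by
    intro x hx
    refine (h7 (y := x) ?_).1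
    rw [Real.dist_eq, sub_zero, abs_of_nonneg hx.1]
    exact lt_of_le_of_lt hx.2 hb1
  obtain ⟨ξ, hξ, h9⟩ := exists_hasDerivAt_eq_slope h h' hb0
    (fun x hx => (hder x hx).continuousAt.continuousWithinAt)
    (fun x hx => hder x (Ioo_subset_Icc_self hx))
  have h10 : 0 < h' ξ := h8 ⟨hξ.1, lt_trans hξ.2 hb2⟩
  have h11 : h b ≤ h 0 := by
    refine (h7 (y := b) ?_).2
    rw [Real.dist_eq, sub_zero, abs_of_nonneg hb0.le]
    exact hb1
  rw [h9] at h10
  have h12 : (h b - h 0) / (b - 0) ≤ 0 := div_nonpos_of_nonpos_of_nonneg (by linarith) (by linarith)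
  linarith

lemma line_deriv {v : Cn n → ℝ} {p : Cn n} (h : ContDiffAt ℝ 2 v p) (ξ : Cn n) :
    (∀ᶠ τ in 𝓝 (0 : ℝ), HasDerivAt (fun τ : ℝ => v (p + τ • ξ)) (fderiv ℝ v (p + τ • ξ) ξ) τ) ∧
      HasDerivAt (fun τ : ℝ => fderiv ℝ v (p + τ • ξ) ξ) (hess v p ξ ξ) 0 := by
  have hl : ∀ τ : ℝ, HasDerivAt (fun τ : ℝ => p + τ • ξ) ξ τ := by
    intro τ
    have := ((hasDerivAt_id τ).smul_const ξ).const_add p
    simpa using this
  constructor
  · have h1 := hasFDeriv_near h
    have h2 : Tendsto (fun τ : ℝ => p + τ • ξ) (𝓝 0) (𝓝 p) := by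
      have := (hl 0).continuousAt.tendsto
      simpa using this
    filter_upwards [h2.eventually h1] with τ hτ
    exact hτ.comp_hasDerivAt τ (hl τ)
  · have h1 := hasFDeriv_fderiv h
    have h2 : HasFDerivAt (fderiv ℝ v) (fderiv ℝ (fderiv ℝ v) p) (p + (0 : ℝ) • ξ) := by
      simpa using h1
    have h3 : HasDerivAt (fun τ : ℝ => fderiv ℝ v (p + τ • ξ)) (fderiv ℝ (fderiv ℝ v) p ξ) 0 :=
      h2.comp_hasDerivAt (0 : ℝ) (hl 0)
    have h4 := h3.clm_apply (hasDerivAt_const (0 : ℝ) ξ)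
    simpa [hess] using h4

/-- second derivative at a local maximum along a line of `v - k` -/
lemma hess_le {v : Cn n → ℝ} {p : Cn n} (h : ContDiffAt ℝ 2 v p) (ξ : Cn n) {k k' : ℝ → ℝ} {c : ℝ}
    (hk : ∀ᶠ τ in 𝓝 (0 : ℝ), HasDerivAt k (k' τ) τ) (hk' : HasDerivAt k' c 0)
    (hm : ∀ᶠ τ in 𝓝 (0 : ℝ), v (p + τ • ξ) - k τ ≤ v p - k 0) : hess v p ξ ξ ≤ c := by
  obtain ⟨h1, h2⟩ := line_deriv h ξ
  have h3 := sec_le (h := fun τ : ℝ => v (p + τ • ξ) - k τ)
    (h' := fun τ => fderiv ℝ v (p + τ • ξ) ξ - k' τ) (c := hess v p ξ ξ - c)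
    (by
      filter_upwards [h1, hk] with τ h4 h5
      exact h4.sub h5)
    (h2.sub hk')
    (by
      filter_upwards [hm] with τ h4
      simpa using h4)
  linarith

/-- a continuous function on the circle is a uniform limit of harmonic polynomials -/
lemma poly_approx {g : ℂ → ℝ} (hg : Continuous fun x : Circle => g x) {ε : ℝ} (hε : 0 < ε) :
    ∃ P : Polynomial ℂ, ∀ ζ : ℂ, ‖ζ‖ = 1 → |g ζ - (P.eval ζ).re| < ε := by
  set T : ℝ := 2 * Real.pi with hT
  have : Fact (0 < T) := ⟨by positivity⟩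
  let h : C(AddCircle T, ℂ) :=
    ⟨fun x => (g ((AddCircle.toCircle x : Circle) : ℂ) : ℂ), by
      exact Complex.continuous_ofReal.comp
        (hg.comp AddCircle.continuous_toCircle)⟩
  have hmem : h ∈ (Submodule.span ℂ (Set.range <| @fourier T)).topologicalClosure := by
    rw [span_fourier_closure_eq_top]; trivial
  have hmem' : h ∈ closure ((Submodule.span ℂ (Set.range <| @fourier T) : Submodule ℂ _) :
      Set C(AddCircle T, ℂ)) := hmem
  obtain ⟨k, hk, hdist⟩ := Metric.mem_closure_iff.1 hmem' ε hε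
  have key : ∃ P Q : Polynomial ℂ, ∀ x : AddCircle T,
      k x = P.eval ((AddCircle.toCircle x : Circle) : ℂ) +
        conj (Q.eval ((AddCircle.toCircle x : Circle) : ℂ)) := by
    refine Submodule.span_induction (p := fun k _ => ∃ P Q : Polynomial ℂ, ∀ x : AddCircle T,
      k x = P.eval ((AddCircle.toCircle x : Circle) : ℂ) +
        conj (Q.eval ((AddCircle.toCircle x : Circle) : ℂ))) ?_ ?_ ?_ ?_ hk
    · rintro _ ⟨n, rfl⟩
      obtain ⟨m, rfl | rfl⟩ := n.eq_nat_or_neg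
      · refine ⟨Polynomial.X ^ m, 0, fun x => ?_⟩
        simp [fourier_apply, AddCircle.toCircle_nsmul]
      · refine ⟨0, Polynomial.X ^ m, fun x => ?_⟩
        rw [fourier_neg]
        simp [fourier_apply, AddCircle.toCircle_nsmul]
    · exact ⟨0, 0, fun x => by simp⟩
    · rintro a b _ _ ⟨P, Q, h1⟩ ⟨P', Q', h2⟩
      refine ⟨P + P', Q + Q', fun x => ?_⟩
      rw [ContinuousMap.add_apply, h1, h2]
      simp only [Polynomial.eval_add, map_add]
      ring
    · rintro a b _ ⟨P, Q, h1⟩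
      refine ⟨Polynomial.C a * P, Polynomial.C (conj a) * Q, fun x => ?_⟩
      rw [ContinuousMap.smul_apply, h1]
      simp only [Polynomial.eval_mul, Polynomial.eval_C, map_mul, Complex.conj_conj, smul_eq_mul]
      ring
  obtain ⟨P, Q, hPQ⟩ := key
  refine ⟨P + Q, fun ζ hζ => ?_⟩
  obtain ⟨x, hx⟩ : ∃ x : AddCircle T, AddCircle.toCircle x =
      (⟨ζ, by simp [Submonoid.unitSphere, hζ]⟩ : Circle) := by
    obtain ⟨x, hx⟩ := (AddCircle.homeomorphCircle (T := T) (by positivity)).surjective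
      (⟨ζ, by simp [Submonoid.unitSphere, hζ]⟩ : Circle)
    exact ⟨x, by rw [← hx, AddCircle.homeomorphCircle_apply]⟩
  have hx' : ((AddCircle.toCircle x : Circle) : ℂ) = ζ := by rw [hx]
  have h1 : ‖h x - k x‖ < ε := by
    have e := ContinuousMap.norm_coe_le_norm (h - k) x
    rw [ContinuousMap.sub_apply] at e
    rw [dist_eq_norm] at hdist
    exact lt_of_le_of_lt e hdist
  have h2 : (h x - k x).re = g ζ - ((P + Q).eval ζ).re := by
    rw [hPQ x, hx']
    show ((g ((AddCircle.toCircle x : Circle) : ℂ) : ℂ) - _).re = _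
    rw [hx']
    simp only [Complex.sub_re, Complex.ofReal_re, Complex.add_re, Complex.conj_re,
      Polynomial.eval_add]
  rw [← h2]
  exact lt_of_le_of_lt (Complex.abs_re_le_norm _) h1

lemma avg_re (P : Polynomial ℂ) :
    Real.circleAverage (fun ζ => (P.eval ζ).re) 0 1 = (P.eval 0).re := by
  have hQ : Differentiable ℂ fun ζ => P.eval ζ := P.differentiable
  have h1 : Real.circleAverage (fun ζ => P.eval ζ) 0 1 = P.eval 0 :=
    (hQ.diffContOnCl (s := ball 0 |1|)).circleAverage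
  have h2 := Complex.reCLM.circleAverage_comp_comm (f := fun ζ => P.eval ζ) (c := 0) (R := 1)
    (hQ.continuous.continuousOn.circleIntegrable')
  have h3 : (fun ζ => (P.eval ζ).re) = Complex.reCLM ∘ (fun ζ => P.eval ζ) := rfl
  rw [h3, h2, h1]
  rfl

lemma poly_line (P : Polynomial ℂ) (a e : ℂ) (τ : ℝ) :
    HasDerivAt (fun τ : ℝ => (P.eval (a + τ * e)).re) ((P.derivative.eval (a + τ * e) * e).re) τ := by
  have h1 : HasDerivAt (fun τ : ℝ => a + (τ : ℂ) * e) e τ := by
    have := ((Complex.ofRealCLM.hasDerivAt (x := τ)).mul_const e).const_add a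
    simpa using this
  have h2 : HasDerivAt (fun τ : ℝ => P.eval (a + τ * e)) (P.derivative.eval (a + τ * e) * e) τ :=
    (P.hasDerivAt (a + τ * e)).comp_of_eq τ h1 rfl
  exact Complex.reCLM.hasFDerivAt.comp_hasDerivAt τ h2

/-- Sub-mean value inequality on complex lines for functions with positive Levi form. -/
theorem submean {v : Cn n → ℝ} {Ω : Set (Cn n)} (hΩ : IsOpen Ω) (hv : ContDiffOn ℝ 2 v Ω)
    (hpos : ∀ z ∈ Ω, ∀ w : Cn n, w ≠ 0 → 0 < levi v z w) (z w : Cn n)
    (hzw : ∀ ζ : ℂ, ‖ζ‖ ≤ 1 → z + ζ • w ∈ Ω) :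
    v z ≤ Real.circleAverage (fun ζ : ℂ => v (z + ζ • w)) 0 1 := by
  rcases eq_or_ne w 0 with hw | hw
  · subst hw
    simp [Real.circleAverage_const]
  set g : ℂ → ℝ := fun ζ => v (z + ζ • w) with hg
  have hl : Continuous fun ζ : ℂ => z + ζ • w := by fun_prop
  have hgc : ContinuousOn g (closedBall 0 1) := by
    refine hv.continuousOn.comp hl.continuousOn ?_
    intro ζ hζ
    exact hzw ζ (by simpa using hζ)
  have hgC : Continuous fun x : Circle => g x := by
    rw [← continuousOn_univ]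
    refine hgc.comp continuous_subtype_val.continuousOn ?_
    intro x _
    rw [mem_closedBall_zero_iff]
    exact (Circle.norm_coe x).le
  apply le_of_forall_pos_le_add
  intro ε hε
  obtain ⟨P, hP⟩ := poly_approx hgC (ε := ε / 2) (by linarith)
  have hPc : Continuous fun ζ : ℂ => (P.eval ζ).re := Complex.continuous_re.comp P.continuous
  obtain ⟨ζ0, hζ0, hmax⟩ := (isCompact_closedBall (0 : ℂ) 1).exists_isMaxOn ⟨0, by simp⟩
    (hgc.sub hPc.continuousOn)
  have hmax' : ∀ ζ : ℂ, ‖ζ‖ ≤ 1 → g ζ - (P.eval ζ).re ≤ g ζ0 - (P.eval ζ0).re := by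
    intro ζ hζ
    exact hmax (by simpa using hζ)
  have hζ0' : ‖ζ0‖ ≤ 1 := by simpa using hζ0
  have hbd : ‖ζ0‖ = 1 := by
    by_contra hne
    have hlt : ‖ζ0‖ < 1 := lt_of_le_of_ne hζ0' hne
    have hp : z + ζ0 • w ∈ Ω := hzw ζ0 hζ0'
    have hvp : ContDiffAt ℝ 2 v (z + ζ0 • w) := hv.contDiffAt (hΩ.mem_nhds hp)
    have key : ∀ e : ℂ, hess v (z + ζ0 • w) (e • w) (e • w) ≤
        (P.derivative.derivative.eval ζ0 * e * e).re := by
      intro e
      refine hess_le hvp (e • w) (k := fun τ : ℝ => (P.eval (ζ0 + τ * e)).re)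
        (k' := fun τ : ℝ => (P.derivative.eval (ζ0 + τ * e) * e).re)
        (Eventually.of_forall fun τ => poly_line P ζ0 e τ) ?_ ?_
      · have h1 : HasDerivAt (fun τ : ℝ => ζ0 + (τ : ℂ) * e) e (0 : ℝ) := by
          have := ((Complex.ofRealCLM.hasDerivAt (x := (0 : ℝ))).mul_const e).const_add ζ0
          simpa using this
        have h2 : HasDerivAt (fun τ : ℝ => P.derivative.eval (ζ0 + τ * e))
            (P.derivative.derivative.eval ζ0 * e) (0 : ℝ) :=
          (P.derivative.hasDerivAt ζ0).comp_of_eq (0 : ℝ) h1 (by simp)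
        exact Complex.reCLM.hasFDerivAt.comp_hasDerivAt (0 : ℝ) (h2.mul_const e)
      · have h3 : Tendsto (fun τ : ℝ => ‖ζ0 + (τ : ℂ) * e‖) (𝓝 0) (𝓝 ‖ζ0‖) := by
          have h4 : Continuous fun τ : ℝ => ‖ζ0 + (τ : ℂ) * e‖ := by fun_prop
          have := h4.tendsto 0
          simpa using this
        filter_upwards [h3.eventually (gt_mem_nhds hlt)] with τ hτ
        have h5 := hmax' (ζ0 + (τ : ℂ) * e) hτ.le
        have h6 : z + (ζ0 + (τ : ℂ) * e) • w = z + ζ0 • w + τ • e • w := by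
          rw [add_smul, mul_smul, add_assoc]
          rfl
        simp only [hg, h6] at h5
        simpa using h5
    have k1 := key 1
    have k2 := key Complex.I
    have k3 := hpos _ hp w hw
    unfold levi at k3
    simp only [one_smul, mul_one] at k1
    have k4 : (P.derivative.derivative.eval ζ0 * Complex.I * Complex.I).re =
        -(P.derivative.derivative.eval ζ0).re := by
      rw [mul_assoc, Complex.I_mul_I]; simp
    rw [k4] at k2
    linarith
  have h1 := hmax' 0 (by simp)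
  have h2 := (abs_lt.1 (hP ζ0 hbd)).2
  have h3 : g 0 = v z := by simp [hg]
  have hc1 : CircleIntegrable (fun ζ => (P.eval ζ).re) 0 1 := hPc.continuousOn.circleIntegrable'
  have hsp : ContinuousOn g (sphere 0 |1|) := hgc.mono (by rw [abs_one]; exact sphere_subset_closedBall)
  have hc2 : CircleIntegrable g 0 1 := hsp.circleIntegrable'
  have hc3 : CircleIntegrable (fun _ : ℂ => ε / 2) 0 1 := circleIntegrable_const _ _ _
  have h4 : (P.eval 0).re ≤ Real.circleAverage g 0 1 + ε / 2 := by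
    rw [← avg_re P]
    have e : Real.circleAverage g 0 1 + ε / 2 = Real.circleAverage (g + fun _ => ε / 2) 0 1 := by
      rw [Real.circleAverage_add hc2 hc3, Real.circleAverage_const]
    rw [e]
    apply Real.circleAverage_mono hc1 (hc2.add hc3)
    intro ζ hζ
    rw [abs_one, mem_sphere_zero_iff_norm] at hζ
    have h5 := abs_lt.1 (hP ζ hζ)
    simp only [Pi.add_apply]
    linarith [h5.1]
  linarith

end Run7.h887.CMA
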